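import Pool.Agent.helper32.EB.Defs2
import Pool.Agent.helper37.BT.LH

/-! # BT project (MP_b57423_pr), module CE: two balls, large and small scales -/

open MeasureTheory ProbabilityTheory Filter Topology
open scoped ENNReal NNReal

namespace Pool.Agent.helper32.EB

/-! ### Integration of a pointwise bound by a function of the logarithm -/

theorem CE_int {ν : Measure ℂ} {h : ℝ} (hν : RotStep ν h) (hh : 0 < h) (w : ℂ)
    (hw : 2 * h ≤ ‖w‖) (α β : ℝ) (hpos : ∀ y : ℂ, ‖y‖ < h → 0 ≤ α + β * Real.log ‖w + y‖)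
    (f : ℂ → ℝ≥0∞)
    (hf : ∀ y : ℂ, ‖y‖ < h → f y ≤ ENNReal.ofReal (α + β * Real.log ‖w + y‖)) :
    ∫⁻ y, f y ∂ν ≤ ENNReal.ofReal (α + β * Real.log ‖w‖) := by
  have := hν.prob
  obtain ⟨h1, h2⟩ := log_harm hν hh w hw
  have h3 : Integrable (fun y => α + β * Real.log ‖w + y‖) ν :=
    (integrable_const α).add (h1.const_mul β)
  have h4 : ∫ y, (α + β * Real.log ‖w + y‖) ∂ν = α + β * Real.log ‖w‖ := by
    rw [integral_add (integrable_const α) (h1.const_mul β), integral_const_mul, h2]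
    simp
  calc ∫⁻ y, f y ∂ν ≤ ∫⁻ y, ENNReal.ofReal (α + β * Real.log ‖w + y‖) ∂ν := by
        apply lintegral_mono_ae
        filter_upwards [hν.bdd] with y hy
        exact hf y hy
    _ = ENNReal.ofReal (∫ y, (α + β * Real.log ‖w + y‖) ∂ν) := by
        rw [ofReal_integral_eq_lintegral_ofReal h3]
        filter_upwards [hν.bdd] with y hy
        exact hpos y hy
    _ = ENNReal.ofReal (α + β * Real.log ‖w‖) := by rw [h4]

theorem CE_int_const {ν : Measure ℂ} {h : ℝ} (hν : RotStep ν h) (c : ℝ≥0∞) (f : ℂ → ℝ≥0∞)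
    (hf : ∀ y : ℂ, ‖y‖ < h → f y ≤ c) : ∫⁻ y, f y ∂ν ≤ c := by
  have := hν.prob
  calc ∫⁻ y, f y ∂ν ≤ ∫⁻ _, c ∂ν := by
        apply lintegral_mono_ae
        filter_upwards [hν.bdd] with y hy
        exact hf y hy
    _ = c := by simp

/-! ### The radii -/

theorem CE_R_ge {G : Geo} (hG : G.OK) : ∀ n, n ≤ G.K → G.ρ ≤ G.R (G.K - n) := by
  have hρ : 0 < G.ρ := by linarith [hG.hpos, hG.hρ]
  intro n
  induction n with
  | zero => intro _; simp [hG.RK]
  | succ n ih =>
    intro hn
    have h1 := ih (by omega)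
    have h2 := hG.dec (G.K - (n + 1)) (by omega)
    have h3 : G.K - (n + 1) + 1 = G.K - n := by omega
    rw [h3] at h2
    linarith

theorem CE_R_ge' {G : Geo} (hG : G.OK) {q : ℕ} (hq : q ≤ G.K) : G.ρ ≤ G.R q := by
  have := CE_R_ge hG (G.K - q) (by omega)
  have h3 : G.K - (G.K - q) = q := by omega
  rwa [h3] at this

theorem CE_R_le {G : Geo} (hG : G.OK) : ∀ q, q ≤ G.K → G.R q ≤ 2 * G.r := by
  have hρ : 0 < G.ρ := by linarith [hG.hpos, hG.hρ]
  intro q
  induction q with
  | zero => intro _; exact hG.R0.le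
  | succ q ih =>
    intro hq
    have h1 := ih (by omega)
    have h2 := hG.dec q (by omega)
    have h3 := CE_R_ge' hG hq
    linarith

/-! ### Measurability of the new state -/

theorem CE_meas_norm (G : Geo) (j : Fin G.J) : Measurable (fun z : ℂ => ‖z - G.x j‖) := by
  fun_prop

theorem CE_meas_U (G : Geo) (s : HS G.J) (j : Fin G.J) :
    MeasurableSet {z : ℂ | j ∈ (updH G z s).U} := by
  have h1 : {z : ℂ | j ∈ (updH G z s).U} = {z : ℂ | j ∈ s.U ∧ G.ρ < ‖z - G.x j‖} := by
    ext z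
    simp [updH, upd]
  rw [h1]
  exact (MeasurableSet.const _).inter (measurableSet_lt measurable_const (CE_meas_norm G j))

theorem CE_meas_st (G : Geo) (s : HS G.J) (j : Fin G.J) (q : ℕ) :
    MeasurableSet {z : ℂ | (updH G z s).st j q = true} := by
  by_cases h : s.st j q = true
  · have h1 : {z : ℂ | (updH G z s).st j q = true} = {z : ℂ | ‖z - G.x j‖ < G.R (q - 1)} := by
      ext z
      simp [updH, h]
    rw [h1]
    exact measurableSet_lt (CE_meas_norm G j) measurable_const
  · have h1 : {z : ℂ | (updH G z s).st j q = true} = {z : ℂ | ‖z - G.x j‖ ≤ G.R q} := by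
      ext z
      simp [updH, h]
    rw [h1]
    exact measurableSet_le (CE_meas_norm G j) measurable_const

theorem CE_meas_cnt (G : Geo) (s : HS G.J) (j : Fin G.J) (q : ℕ) :
    Measurable (fun z : ℂ => (updH G z s).cnt j q) := by
  simp only [updH]
  refine Measurable.ite ?_ measurable_const measurable_const
  exact (MeasurableSet.const _).inter (measurableSet_le (CE_meas_norm G j) measurable_const)

/-! ### The new state -/

theorem CE_mem_U (G : Geo) (z : ℂ) (s : HS G.J) (j : Fin G.J) :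
    j ∈ (updH G z s).U ↔ j ∈ s.U ∧ G.ρ < ‖z - G.x j‖ := by
  simp [updH, upd]

theorem CE_st_out_in (G : Geo) (z : ℂ) (s : HS G.J) (j : Fin G.J) (q : ℕ)
    (h : s.st j q = false) (hz : ‖z - G.x j‖ ≤ G.R q) :
    (updH G z s).st j q = true ∧ (updH G z s).cnt j q = s.cnt j q + 1 := by
  simp [updH, h, hz]

theorem CE_st_out_out (G : Geo) (z : ℂ) (s : HS G.J) (j : Fin G.J) (q : ℕ)
    (h : s.st j q = false) (hz : G.R q < ‖z - G.x j‖) :
    (updH G z s).st j q = false ∧ (updH G z s).cnt j q = s.cnt j q := by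
  have hz' : ¬ ‖z - G.x j‖ ≤ G.R q := not_le.2 hz
  simp [updH, h, hz']

theorem CE_st_in_in (G : Geo) (z : ℂ) (s : HS G.J) (j : Fin G.J) (q : ℕ)
    (h : s.st j q = true) (hz : ‖z - G.x j‖ < G.R (q - 1)) :
    (updH G z s).st j q = true ∧ (updH G z s).cnt j q = s.cnt j q := by
  simp [updH, h, hz]

theorem CE_st_in_out (G : Geo) (z : ℂ) (s : HS G.J) (j : Fin G.J) (q : ℕ)
    (h : s.st j q = true) (hz : G.R (q - 1) ≤ ‖z - G.x j‖) :
    (updH G z s).st j q = false ∧ (updH G z s).cnt j q = s.cnt j q := by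
  have hz' : ¬ ‖z - G.x j‖ < G.R (q - 1) := not_lt.2 hz
  simp [updH, h, hz']

/-! ### The supersolution -/

/-- outside function -/
noncomputable def CE_fo (G : Geo) (c : ℝ) (t : ℝ) : ℝ :=
  1 - c * (Real.log (G.R' - G.r) - Real.log t)

/-- inside function at the small scale -/
noncomputable def CE_mi (G : Geo) (k : ℕ) (t : ℝ) : ℝ :=
  (Real.log t - Real.log (G.ρ - G.h)) / tt G (k + 2)

/-- position dependent factor -/
noncomputable def CE_F (G : Geo) (i j : Fin G.J) (k : ℕ) (c b : ℝ) (z : ℂ) (s : HS G.J) : ℝ :=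
  if s.st i k = true then
    (if s.st i (k + 3) = true then b * CE_mi G k ‖z - G.x i‖
      else if s.st j (k + 3) = true then b * CE_mi G k ‖z - G.x j‖ else b)
  else CE_fo G c ‖z - G.x i‖

/-- history dependent factor -/
noncomputable def CE_A (G : Geo) (i j : Fin G.J) (k : ℕ) (u g : ℝ) (m : ℕ) (s : HS G.J) : ℝ :=
  u ^ (s.cnt i k) * mu G (k + 3) ^ (s.cnt i (k + 3) + s.cnt j (k + 3)) * g ^ m

open Classical in
/-- the supersolution -/
noncomputable def CE_P (G : Geo) (i j : Fin G.J) (k : ℕ) (u c b g : ℝ) (m : ℕ) (z : ℂ)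
    (s : HS G.J) : ℝ≥0∞ :=
  if i ∈ s.U ∧ j ∈ s.U then ENNReal.ofReal (CE_A G i j k u g m s * CE_F G i j k c b z s) else 0

theorem CE_P_meas (G : Geo) (i j : Fin G.J) (k : ℕ) (u c b g : ℝ) (m : ℕ) (s : HS G.J) :
    Measurable (fun z => CE_P G i j k u c b g m z (updH G z s)) := by
  unfold CE_P
  refine Measurable.ite ((CE_meas_U G s i).inter (CE_meas_U G s j)) ?_ measurable_const
  refine ENNReal.measurable_ofReal.comp (Measurable.mul ?_ ?_)
  · unfold CE_A
    refine (Measurable.mul ?_ ?_).mul measurable_const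
    · exact (measurable_from_top (f := fun n : ℕ => u ^ n)).comp (CE_meas_cnt G s i k)
    · exact (measurable_from_top (f := fun n : ℕ => mu G (k + 3) ^ n)).comp
        ((CE_meas_cnt G s i (k + 3)).add (CE_meas_cnt G s j (k + 3)))
  · unfold CE_F
    refine Measurable.ite (CE_meas_st G s i k) ?_ ?_
    · refine Measurable.ite (CE_meas_st G s i (k + 3)) ?_ ?_
      · unfold CE_mi
        fun_prop
      · refine Measurable.ite (CE_meas_st G s j (k + 3)) ?_ measurable_const
        unfold CE_mi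
        fun_prop
    · unfold CE_fo
      fun_prop

/-- numerical facts about the constants -/
structure CE_Num (G : Geo) (i j : Fin G.J) (k : ℕ) (u c b g : ℝ) : Prop where
  hh : 0 < G.h
  hρ : 8 * G.h ≤ G.ρ
  a01 : 8 * G.R k ≤ G.R (k - 1)
  a12 : 8 * G.R (k + 1) ≤ G.R k
  a23 : 8 * G.R (k + 2) ≤ G.R (k + 1)
  a34 : 8 * G.R (k + 3) ≤ G.R (k + 2)
  a4 : 8 * G.ρ ≤ G.R (k + 3)
  a0 : G.R (k - 1) ≤ 2 * G.r
  big : 8 * G.r ≤ G.R'
  xi : ‖G.x i‖ ≤ 3 / 8 * G.r
  xj : ‖G.x j‖ ≤ 3 / 8 * G.r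
  d1 : 2 * G.R (k + 2) < ‖G.x i - G.x j‖
  d2 : ‖G.x i - G.x j‖ ≤ 2 * G.R (k + 1)
  u0 : 0 < u
  c0 : 0 ≤ c
  b0 : 0 ≤ b
  g0 : 0 ≤ g
  g1 : 1 - c * sr G ≤ g
  mu0 : 0 < mu G (k + 3)
  f1 : ∀ t, G.R k - G.h < t → u * b ≤ CE_fo G c t
  f2 : ∀ t, G.R (k - 1) ≤ t → t < G.R (k - 1) + G.h → CE_fo G c t ≤ b
  m1 : ∀ t, G.ρ < t → t ≤ G.R (k + 3) → mu G (k + 3) * CE_mi G k t ≤ 1
  m2 : ∀ t, G.R (k + 2) ≤ t → 1 ≤ CE_mi G k t
  m0 : ∀ t, G.ρ - G.h < t → 0 ≤ CE_mi G k t

theorem CE_A_nonneg {G : Geo} {i j : Fin G.J} {k : ℕ} {u c b g : ℝ} (N : CE_Num G i j k u c b g)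
    (m : ℕ) (s : HS G.J) : 0 ≤ CE_A G i j k u g m s := by
  unfold CE_A
  have h1 := N.u0
  have h2 := N.mu0
  have h3 := N.g0
  positivity

theorem CE_A_eq (G : Geo) (i j : Fin G.J) (k : ℕ) (u g : ℝ) (m : ℕ) (s s' : HS G.J)
    (e1 e2 e3 : ℕ) (h1 : s'.cnt i k = s.cnt i k + e1)
    (h2 : s'.cnt i (k + 3) = s.cnt i (k + 3) + e2)
    (h3 : s'.cnt j (k + 3) = s.cnt j (k + 3) + e3) :
    CE_A G i j k u g m s' = u ^ e1 * mu G (k + 3) ^ (e2 + e3) * CE_A G i j k u g m s := by
  unfold CE_A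
  rw [h1, h2, h3]
  ring

theorem CE_P_le (G : Geo) (i j : Fin G.J) (k : ℕ) (u c b g : ℝ) (m : ℕ) (z : ℂ) (s : HS G.J)
    (T : ℝ) (h : i ∈ s.U → j ∈ s.U → CE_A G i j k u g m s * CE_F G i j k c b z s ≤ T) :
    CE_P G i j k u c b g m z s ≤ ENNReal.ofReal T := by
  unfold CE_P
  split_ifs with h1
  · exact ENNReal.ofReal_le_ofReal (h h1.1 h1.2)
  · exact zero_le

theorem CE_tri1 (z y a : ℂ) : ‖z - a‖ ≤ ‖z + y - a‖ + ‖y‖ := by
  have h1 : z - a = (z + y - a) - y := by ring
  rw [h1]
  exact norm_sub_le _ _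

theorem CE_tri2 (z y a : ℂ) : ‖z + y - a‖ ≤ ‖z - a‖ + ‖y‖ := by
  have h1 : z + y - a = (z - a) + y := by ring
  rw [h1]
  exact norm_add_le _ _

theorem CE_tri3 (z a b : ℂ) : ‖z - a‖ ≤ ‖z - b‖ + ‖a - b‖ := by
  have h1 : z - a = (z - b) - (a - b) := by ring
  rw [h1]
  exact norm_sub_le _ _

theorem CE_tri4 (z a b : ℂ) : ‖a - b‖ ≤ ‖z - a‖ + ‖z - b‖ := by
  have h1 : a - b = (z - b) - (z - a) := by ring
  rw [h1]
  have := norm_sub_le (z - b) (z - a)
  linarith

theorem CE_tri5 (z a b : ℂ) : ‖z - b‖ ≤ ‖z - a‖ + ‖a - b‖ := by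
  have h1 : z - b = (z - a) + (a - b) := by ring
  rw [h1]
  exact norm_add_le _ _

/-- one step, macro crossing not in progress -/
theorem CE_stepA {G : Geo} {ν : Measure ℂ} (hν : RotStep ν G.h) {i j : Fin G.J} {k : ℕ}
    (hk : 1 ≤ k) (hkK : k + 4 ≤ G.K) {u c b g : ℝ} (N : CE_Num G i j k u c b g) (m : ℕ) (z : ℂ)
    (s : HS G.J) (hv : Val G z s) (hst : s.st i k = false)
    (hU : i ∈ s.U ∧ j ∈ s.U) :
    ∫⁻ y, CE_P G i j k u c b g m (z + y) (updH G (z + y) s) ∂ν ≤ CE_P G i j k u c b g m z s := by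
  have hw : G.R k < ‖z - G.x i‖ := (hv.2 i k hk (by omega)).2 hst
  have hρ0 : 0 < G.ρ := by linarith [N.hh, N.hρ]
  have hmi : s.st i (k + 3) = false := by
    by_contra h
    have h1 := (hv.2 i (k + 3) (by omega) (by omega)).1 (by simpa using h)
    have h2 : k + 3 - 1 = k + 2 := by omega
    rw [h2] at h1
    linarith [N.a12, N.a23, N.a34, N.a4]
  have hmj : s.st j (k + 3) = false := by
    by_contra h
    have h1 := (hv.2 j (k + 3) (by omega) (by omega)).1 (by simpa using h)
    have h2 : k + 3 - 1 = k + 2 := by omega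
    rw [h2] at h1
    have h3 := CE_tri3 z (G.x i) (G.x j)
    linarith [N.a12, N.a23, N.a34, N.a4, N.d2]
  have hA := CE_A_nonneg N m s
  have hR : CE_P G i j k u c b g m z s = ENNReal.ofReal
      (CE_A G i j k u g m s * (1 - c * Real.log (G.R' - G.r)) +
        (CE_A G i j k u g m s * c) * Real.log ‖z - G.x i‖) := by
    unfold CE_P
    rw [if_pos hU]
    congr 1
    unfold CE_F CE_fo
    rw [hst]
    simp only [Bool.false_eq_true, if_false]
    ring
  rw [hR]
  have hval : ∀ y : ℂ, CE_A G i j k u g m s * (1 - c * Real.log (G.R' - G.r)) +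
        (CE_A G i j k u g m s * c) * Real.log ‖z - G.x i + y‖ =
        CE_A G i j k u g m s * CE_fo G c ‖z + y - G.x i‖ := by
    intro y
    have h1 : z - G.x i + y = z + y - G.x i := by ring
    rw [h1]
    unfold CE_fo
    ring
  apply CE_int hν N.hh _ (by linarith [N.a12, N.a23, N.a34, N.a4, N.hρ, N.hh])
  · intro y hy
    rw [hval]
    have h1 := CE_tri1 z y (G.x i)
    have h2 := N.f1 ‖z + y - G.x i‖ (by linarith)
    have h3 : 0 ≤ u * b := mul_nonneg N.u0.le N.b0
    exact mul_nonneg hA (h3.trans h2)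
  · intro y hy
    rw [hval]
    have h1 := CE_tri1 z y (G.x i)
    have h2 := N.f1 ‖z + y - G.x i‖ (by linarith)
    have hi3 := CE_st_out_out G (z + y) s i (k + 3) hmi
      (by linarith [N.a12, N.a23, N.a34, N.a4, N.hρ, N.hh])
    have hj3 := CE_st_out_out G (z + y) s j (k + 3) hmj
      (by
        have h3 := CE_tri3 (z + y) (G.x i) (G.x j)
        linarith [N.a12, N.a23, N.a34, N.a4, N.hρ, N.hh, N.d2])
    apply CE_P_le
    intro _ _
    rcases le_or_gt ‖z + y - G.x i‖ (G.R k) with h4 | h4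
    · have hik := CE_st_out_in G (z + y) s i k hst h4
      have e1 := CE_A_eq G i j k u g m s (updH G (z + y) s) 1 0 0 hik.2 (by rw [hi3.2]; rfl)
        (by rw [hj3.2]; rfl)
      rw [e1]
      have e2 : CE_F G i j k c b (z + y) (updH G (z + y) s) = b := by
        unfold CE_F
        rw [hik.1, hi3.1, hj3.1]
        simp
      rw [e2]
      have h5 := mul_le_mul_of_nonneg_left h2 hA
      calc u ^ 1 * mu G (k + 3) ^ (0 + 0) * CE_A G i j k u g m s * b =
          CE_A G i j k u g m s * (u * b) := by ring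
        _ ≤ _ := h5
    · have hik := CE_st_out_out G (z + y) s i k hst h4
      have e1 := CE_A_eq G i j k u g m s (updH G (z + y) s) 0 0 0 (by rw [hik.2]; rfl)
        (by rw [hi3.2]; rfl) (by rw [hj3.2]; rfl)
      rw [e1]
      have e2 : CE_F G i j k c b (z + y) (updH G (z + y) s) = CE_fo G c ‖z + y - G.x i‖ := by
        unfold CE_F
        rw [hik.1]
        simp
      rw [e2]
      apply le_of_eq
      ring

/-- one step, macro crossing in progress, no micro crossing in progress -/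
theorem CE_stepB {G : Geo} {ν : Measure ℂ} (hν : RotStep ν G.h) {i j : Fin G.J} {k : ℕ}
    (hk : 1 ≤ k) (hkK : k + 4 ≤ G.K) {u c b g : ℝ} (N : CE_Num G i j k u c b g) (m : ℕ) (z : ℂ)
    (s : HS G.J) (hv : Val G z s) (hst : s.st i k = true) (hmi : s.st i (k + 3) = false)
    (hmj : s.st j (k + 3) = false) (hU : i ∈ s.U ∧ j ∈ s.U) :
    ∫⁻ y, CE_P G i j k u c b g m (z + y) (updH G (z + y) s) ∂ν ≤ CE_P G i j k u c b g m z s := by
  have hw : ‖z - G.x i‖ < G.R (k - 1) := (hv.2 i k hk (by omega)).1 hst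
  have hρ0 : 0 < G.ρ := by linarith [N.hh, N.hρ]
  have hA := CE_A_nonneg N m s
  have hR : CE_P G i j k u c b g m z s = ENNReal.ofReal (CE_A G i j k u g m s * b) := by
    unfold CE_P
    rw [if_pos hU]
    congr 1
    unfold CE_F
    rw [hst, hmi, hmj]
    simp
  rw [hR]
  apply CE_int_const hν
  intro y hy
  apply CE_P_le
  intro hiU hjU
  have hiU' := ((CE_mem_U G (z + y) s i).1 hiU).2
  have hjU' := ((CE_mem_U G (z + y) s j).1 hjU).2
  have h1 := CE_tri2 z y (G.x i)
  rcases le_or_gt (G.R (k - 1)) ‖z + y - G.x i‖ with h4 | h4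
  · -- macro exit
    have hik := CE_st_in_out G (z + y) s i k hst h4
    have hi3 := CE_st_out_out G (z + y) s i (k + 3) hmi
      (by linarith [N.a01, N.a12, N.a23, N.a34, N.a4, N.hρ, N.hh])
    have hj3 := CE_st_out_out G (z + y) s j (k + 3) hmj
      (by
        have h3 := CE_tri3 (z + y) (G.x i) (G.x j)
        linarith [N.a01, N.a12, N.a23, N.a34, N.a4, N.hρ, N.hh, N.d2])
    have e1 := CE_A_eq G i j k u g m s (updH G (z + y) s) 0 0 0 (by rw [hik.2]; rfl)
      (by rw [hi3.2]; rfl) (by rw [hj3.2]; rfl)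
    rw [e1]
    have e2 : CE_F G i j k c b (z + y) (updH G (z + y) s) = CE_fo G c ‖z + y - G.x i‖ := by
      unfold CE_F
      rw [hik.1]
      simp
    rw [e2]
    have h5 := N.f2 _ h4 (by linarith)
    have h6 := mul_le_mul_of_nonneg_left h5 hA
    calc _ = CE_A G i j k u g m s * CE_fo G c ‖z + y - G.x i‖ := by ring
      _ ≤ _ := h6
  · have hik := CE_st_in_in G (z + y) s i k hst h4
    rcases le_or_gt ‖z + y - G.x i‖ (G.R (k + 3)) with h7 | h7
    · -- micro entrance at i
      have hi3 := CE_st_out_in G (z + y) s i (k + 3) hmi h7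
      have hj3 := CE_st_out_out G (z + y) s j (k + 3) hmj
        (by
          have h3 := CE_tri4 (z + y) (G.x i) (G.x j)
          linarith [N.a01, N.a12, N.a23, N.a34, N.a4, N.hρ, N.hh, N.d1])
      have e1 := CE_A_eq G i j k u g m s (updH G (z + y) s) 0 1 0 (by rw [hik.2]; rfl)
        (by rw [hi3.2]) (by rw [hj3.2]; rfl)
      rw [e1]
      have e2 : CE_F G i j k c b (z + y) (updH G (z + y) s) = b * CE_mi G k ‖z + y - G.x i‖ := by
        unfold CE_F
        rw [hik.1, hi3.1]
        simp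
      rw [e2]
      have h5 := N.m1 _ hiU' h7
      have h6 := mul_le_mul_of_nonneg_left h5 (mul_nonneg hA N.b0)
      calc _ = CE_A G i j k u g m s * b * (mu G (k + 3) * CE_mi G k ‖z + y - G.x i‖) := by ring
        _ ≤ CE_A G i j k u g m s * b * 1 := h6
        _ = _ := by ring
    · have hi3 := CE_st_out_out G (z + y) s i (k + 3) hmi h7
      rcases le_or_gt ‖z + y - G.x j‖ (G.R (k + 3)) with h8 | h8
      · -- micro entrance at j
        have hj3 := CE_st_out_in G (z + y) s j (k + 3) hmj h8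
        have e1 := CE_A_eq G i j k u g m s (updH G (z + y) s) 0 0 1 (by rw [hik.2]; rfl)
          (by rw [hi3.2]; rfl) (by rw [hj3.2])
        rw [e1]
        have e2 : CE_F G i j k c b (z + y) (updH G (z + y) s) =
            b * CE_mi G k ‖z + y - G.x j‖ := by
          unfold CE_F
          rw [hik.1, hi3.1, hj3.1]
          simp
        rw [e2]
        have h5 := N.m1 _ hjU' h8
        have h6 := mul_le_mul_of_nonneg_left h5 (mul_nonneg hA N.b0)
        calc _ = CE_A G i j k u g m s * b * (mu G (k + 3) * CE_mi G k ‖z + y - G.x j‖) := by ring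
          _ ≤ CE_A G i j k u g m s * b * 1 := h6
          _ = _ := by ring
      · have hj3 := CE_st_out_out G (z + y) s j (k + 3) hmj h8
        have e1 := CE_A_eq G i j k u g m s (updH G (z + y) s) 0 0 0 (by rw [hik.2]; rfl)
          (by rw [hi3.2]; rfl) (by rw [hj3.2]; rfl)
        rw [e1]
        have e2 : CE_F G i j k c b (z + y) (updH G (z + y) s) = b := by
          unfold CE_F
          rw [hik.1, hi3.1, hj3.1]
          simp
        rw [e2]
        apply le_of_eq
        ring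

theorem CE_mi_val (G : Geo) (k : ℕ) (A b : ℝ) (t : ℝ) :
    A * (b * (-(Real.log (G.ρ - G.h)) / tt G (k + 2))) + A * b / tt G (k + 2) * Real.log t =
      A * (b * CE_mi G k t) := by
  unfold CE_mi
  ring

/-- one step, macro crossing and micro crossing around `x i` in progress -/
theorem CE_stepC {G : Geo} {ν : Measure ℂ} (hν : RotStep ν G.h) {i j : Fin G.J} {k : ℕ}
    (hk : 1 ≤ k) (hkK : k + 4 ≤ G.K) {u c b g : ℝ} (N : CE_Num G i j k u c b g) (m : ℕ) (z : ℂ)
    (s : HS G.J) (hv : Val G z s) (hst : s.st i k = true) (hmi : s.st i (k + 3) = true)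
    (hU : i ∈ s.U ∧ j ∈ s.U) :
    ∫⁻ y, CE_P G i j k u c b g m (z + y) (updH G (z + y) s) ∂ν ≤ CE_P G i j k u c b g m z s := by
  have hkk : k + 3 - 1 = k + 2 := by omega
  have hw : ‖z - G.x i‖ < G.R (k + 2) := by
    have h1 := (hv.2 i (k + 3) (by omega) (by omega)).1 hmi
    rwa [hkk] at h1
  have hwρ : G.ρ < ‖z - G.x i‖ := hv.1 i hU.1
  have hρ0 : 0 < G.ρ := by linarith [N.hh, N.hρ]
  have hmj : s.st j (k + 3) = false := by
    by_contra h
    have h1 := (hv.2 j (k + 3) (by omega) (by omega)).1 (by simpa using h)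
    rw [hkk] at h1
    have h3 := CE_tri4 z (G.x i) (G.x j)
    linarith [N.d1]
  have hA := CE_A_nonneg N m s
  have hR : CE_P G i j k u c b g m z s = ENNReal.ofReal
      (CE_A G i j k u g m s * (b * (-(Real.log (G.ρ - G.h)) / tt G (k + 2))) +
        CE_A G i j k u g m s * b / tt G (k + 2) * Real.log ‖z - G.x i‖) := by
    rw [CE_mi_val]
    unfold CE_P
    rw [if_pos hU]
    congr 1
    unfold CE_F
    rw [hst, hmi]
    simp
  rw [hR]
  have harg : ∀ y : ℂ, z - G.x i + y = z + y - G.x i := fun y => by ring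
  apply CE_int hν N.hh _ (by linarith [N.hρ, N.hh])
  · intro y hy
    rw [CE_mi_val, harg]
    have h1 := CE_tri1 z y (G.x i)
    have h2 := N.m0 ‖z + y - G.x i‖ (by linarith)
    exact mul_nonneg hA (mul_nonneg N.b0 h2)
  · intro y hy
    rw [CE_mi_val, harg]
    have h1 := CE_tri2 z y (G.x i)
    apply CE_P_le
    intro hiU hjU
    have hik := CE_st_in_in G (z + y) s i k hst
      (by linarith [N.a01, N.a12, N.a23, N.a34, N.a4, N.hρ, N.hh])
    have hj3 := CE_st_out_out G (z + y) s j (k + 3) hmj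
      (by
        have h3 := CE_tri4 (z + y) (G.x i) (G.x j)
        linarith [N.a01, N.a12, N.a23, N.a34, N.a4, N.hρ, N.hh, N.d1])
    rcases lt_or_ge ‖z + y - G.x i‖ (G.R (k + 2)) with h4 | h4
    · have hi3 := CE_st_in_in G (z + y) s i (k + 3) hmi (by rw [hkk]; exact h4)
      have e1 := CE_A_eq G i j k u g m s (updH G (z + y) s) 0 0 0 (by rw [hik.2]; rfl)
        (by rw [hi3.2]; rfl) (by rw [hj3.2]; rfl)
      rw [e1]
      have e2 : CE_F G i j k c b (z + y) (updH G (z + y) s) = b * CE_mi G k ‖z + y - G.x i‖ := by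
        unfold CE_F
        rw [hik.1, hi3.1]
        simp
      rw [e2]
      apply le_of_eq
      ring
    · have hi3 := CE_st_in_out G (z + y) s i (k + 3) hmi (by rw [hkk]; exact h4)
      have e1 := CE_A_eq G i j k u g m s (updH G (z + y) s) 0 0 0 (by rw [hik.2]; rfl)
        (by rw [hi3.2]; rfl) (by rw [hj3.2]; rfl)
      rw [e1]
      have e2 : CE_F G i j k c b (z + y) (updH G (z + y) s) = b := by
        unfold CE_F
        rw [hik.1, hi3.1, hj3.1]
        simp
      rw [e2]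
      have h5 := N.m2 _ h4
      have h6 := mul_le_mul_of_nonneg_left h5 (mul_nonneg hA N.b0)
      calc _ = CE_A G i j k u g m s * b * 1 := by ring
        _ ≤ _ := h6
        _ = _ := by ring

/-- one step, macro crossing and micro crossing around `x j` in progress -/
theorem CE_stepD {G : Geo} {ν : Measure ℂ} (hν : RotStep ν G.h) {i j : Fin G.J} {k : ℕ}
    (hk : 1 ≤ k) (hkK : k + 4 ≤ G.K) {u c b g : ℝ} (N : CE_Num G i j k u c b g) (m : ℕ) (z : ℂ)
    (s : HS G.J) (hv : Val G z s) (hst : s.st i k = true) (hmi : s.st i (k + 3) = false)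
    (hmj : s.st j (k + 3) = true) (hU : i ∈ s.U ∧ j ∈ s.U) :
    ∫⁻ y, CE_P G i j k u c b g m (z + y) (updH G (z + y) s) ∂ν ≤ CE_P G i j k u c b g m z s := by
  have hkk : k + 3 - 1 = k + 2 := by omega
  have hw : ‖z - G.x j‖ < G.R (k + 2) := by
    have h1 := (hv.2 j (k + 3) (by omega) (by omega)).1 hmj
    rwa [hkk] at h1
  have hwρ : G.ρ < ‖z - G.x j‖ := hv.1 j hU.2
  have hρ0 : 0 < G.ρ := by linarith [N.hh, N.hρ]
  have hA := CE_A_nonneg N m s
  have hR : CE_P G i j k u c b g m z s = ENNReal.ofReal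
      (CE_A G i j k u g m s * (b * (-(Real.log (G.ρ - G.h)) / tt G (k + 2))) +
        CE_A G i j k u g m s * b / tt G (k + 2) * Real.log ‖z - G.x j‖) := by
    rw [CE_mi_val]
    unfold CE_P
    rw [if_pos hU]
    congr 1
    unfold CE_F
    rw [hst, hmi, hmj]
    simp
  rw [hR]
  have harg : ∀ y : ℂ, z - G.x j + y = z + y - G.x j := fun y => by ring
  apply CE_int hν N.hh _ (by linarith [N.hρ, N.hh])
  · intro y hy
    rw [CE_mi_val, harg]
    have h1 := CE_tri1 z y (G.x j)
    have h2 := N.m0 ‖z + y - G.x j‖ (by linarith)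
    exact mul_nonneg hA (mul_nonneg N.b0 h2)
  · intro y hy
    rw [CE_mi_val, harg]
    have h1 := CE_tri2 z y (G.x j)
    apply CE_P_le
    intro hiU hjU
    have hik := CE_st_in_in G (z + y) s i k hst
      (by
        have h3 := CE_tri3 (z + y) (G.x i) (G.x j)
        linarith [N.a01, N.a12, N.a23, N.a34, N.a4, N.hρ, N.hh, N.d2])
    have hi3 := CE_st_out_out G (z + y) s i (k + 3) hmi
      (by
        have h3 := CE_tri4 (z + y) (G.x i) (G.x j)
        linarith [N.a01, N.a12, N.a23, N.a34, N.a4, N.hρ, N.hh, N.d1])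
    rcases lt_or_ge ‖z + y - G.x j‖ (G.R (k + 2)) with h4 | h4
    · have hj3 := CE_st_in_in G (z + y) s j (k + 3) hmj (by rw [hkk]; exact h4)
      have e1 := CE_A_eq G i j k u g m s (updH G (z + y) s) 0 0 0 (by rw [hik.2]; rfl)
        (by rw [hi3.2]; rfl) (by rw [hj3.2]; rfl)
      rw [e1]
      have e2 : CE_F G i j k c b (z + y) (updH G (z + y) s) = b * CE_mi G k ‖z + y - G.x j‖ := by
        unfold CE_F
        rw [hik.1, hi3.1, hj3.1]
        simp
      rw [e2]
      apply le_of_eq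
      ring
    · have hj3 := CE_st_in_out G (z + y) s j (k + 3) hmj (by rw [hkk]; exact h4)
      have e1 := CE_A_eq G i j k u g m s (updH G (z + y) s) 0 0 0 (by rw [hik.2]; rfl)
        (by rw [hi3.2]; rfl) (by rw [hj3.2]; rfl)
      rw [e1]
      have e2 : CE_F G i j k c b (z + y) (updH G (z + y) s) = b := by
        unfold CE_F
        rw [hik.1, hi3.1, hj3.1]
        simp
      rw [e2]
      have h5 := N.m2 _ h4
      have h6 := mul_le_mul_of_nonneg_left h5 (mul_nonneg hA N.b0)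
      calc _ = CE_A G i j k u g m s * b * 1 := by ring
        _ ≤ _ := h6
        _ = _ := by ring

theorem CE_step {G : Geo} {ν : Measure ℂ} (hν : RotStep ν G.h) {i j : Fin G.J} {k : ℕ}
    (hk : 1 ≤ k) (hkK : k + 4 ≤ G.K) {u c b g : ℝ} (N : CE_Num G i j k u c b g) (m : ℕ) (z : ℂ)
    (s : HS G.J) (hv : Val G z s) :
    ∫⁻ y, CE_P G i j k u c b g m (z + y) (updH G (z + y) s) ∂ν ≤ CE_P G i j k u c b g m z s := by
  by_cases hU : i ∈ s.U ∧ j ∈ s.U
  · cases hst : s.st i k with
    | false => exact CE_stepA hν hk hkK N m z s hv hst hU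
    | true =>
      cases hmi : s.st i (k + 3) with
      | true => exact CE_stepC hν hk hkK N m z s hv hst hmi hU
      | false =>
        cases hmj : s.st j (k + 3) with
        | true => exact CE_stepD hν hk hkK N m z s hv hst hmi hmj hU
        | false => exact CE_stepB hν hk hkK N m z s hv hst hmi hmj hU
  · have h0 : ∀ y, CE_P G i j k u c b g m (z + y) (updH G (z + y) s) = 0 := by
      intro y
      unfold CE_P
      rw [if_neg]
      intro h
      exact hU ⟨((CE_mem_U G (z + y) s i).1 h.1).1, ((CE_mem_U G (z + y) s j).1 h.2).1⟩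
    simp only [h0, lintegral_zero]
    exact zero_le

theorem CE_superC {G : Geo} {ν : Measure ℂ} (hν : RotStep ν G.h) {i j : Fin G.J} {k : ℕ}
    (hk : 1 ≤ k) (hkK : k + 4 ≤ G.K) {u c b g : ℝ} (N : CE_Num G i j k u c b g)
    (hR0 : ∀ q ≤ G.K, G.R q ≤ 2 * G.r) (hR1 : ∀ q, 1 ≤ q → q ≤ G.K → G.R q ≤ G.r / 4) :
    SuperC G ν (CE_P G i j k u c b g) (fun m s => if i ∈ s.U ∧ j ∈ s.U then
      ENNReal.ofReal (CE_A G i j k u g m s) else 0) := by
  have hρ0 : 0 < G.ρ := by linarith [N.hh, N.hρ]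
  have hr : 0 < G.r := by linarith [N.a01, N.a12, N.a23, N.a34, N.a4, N.a0]
  refine ⟨?_, ?_, ?_, ?_⟩
  · intro m s
    exact CE_P_meas G i j k u c b g m s
  · intro m z s _ hv
    exact CE_step hν hk hkK N m z s hv
  · intro m z s hz _
    have hst : (updH G z s).st i k = false := by
      have h1 : ‖z‖ ≤ ‖z - G.x i‖ + ‖G.x i‖ := by
        have h2 : z = (z - G.x i) + G.x i := by ring
        nth_rewrite 1 [h2]
        exact norm_add_le _ _
      have h3 := N.xi
      have h4 := N.big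
      have h5 := hR0 (k - 1) (by omega)
      have h6 := hR0 k (by omega)
      cases hs : s.st i k with
      | true => exact (CE_st_in_out G z s i k hs (by linarith)).1
      | false => exact (CE_st_out_out G z s i k hs (by linarith)).1
    unfold CE_P
    split_ifs with hU
    · apply ENNReal.ofReal_le_ofReal
      have hF : CE_F G i j k c b z (updH G z s) = CE_fo G c ‖z - G.x i‖ := by
        unfold CE_F
        rw [hst]
        simp
      rw [hF]
      have h1 : 1 ≤ CE_fo G c ‖z - G.x i‖ := by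
        unfold CE_fo
        have h1 : ‖z‖ ≤ ‖z - G.x i‖ + ‖G.x i‖ := by
          have h2 : z = (z - G.x i) + G.x i := by ring
          nth_rewrite 1 [h2]
          exact norm_add_le _ _
        have h3 := N.xi
        have h4 := N.big
        have h5 : Real.log (G.R' - G.r) ≤ Real.log ‖z - G.x i‖ :=
          Real.log_le_log (by linarith) (by linarith)
        have h6 := mul_nonneg N.c0 (sub_nonneg.2 h5)
        linarith
      have h2 := mul_le_mul_of_nonneg_left h1 (CE_A_nonneg N m (updH G z s))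
      linarith
    · exact le_refl _
  · intro m z s hid hz1 hz2
    have hw1 : ‖z‖ ≤ ‖z - G.x i‖ + ‖G.x i‖ := by
      have h2 : z = (z - G.x i) + G.x i := by ring
      nth_rewrite 1 [h2]
      exact norm_add_le _ _
    have hw1j : ‖z‖ ≤ ‖z - G.x j‖ + ‖G.x j‖ := by
      have h2 : z = (z - G.x j) + G.x j := by ring
      nth_rewrite 1 [h2]
      exact norm_add_le _ _
    have hw2 : ‖z - G.x i‖ ≤ ‖z‖ + ‖G.x i‖ := norm_sub_le _ _
    have h3 := N.xi
    have h3j := N.xj
    have hhr : 8 * G.h ≤ G.r / 4 := by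
      have := hR1 (k + 3) (by omega) (by omega)
      linarith [N.hρ, N.a4]
    have hik := CE_st_out_out G z s i k (hid i k hk (by omega))
      (by have := hR1 k hk (by omega); linarith)
    have hi3 := CE_st_out_out G z s i (k + 3) (hid i (k + 3) (by omega) (by omega))
      (by have := hR1 (k + 3) (by omega) (by omega); linarith)
    have hj3 := CE_st_out_out G z s j (k + 3) (hid j (k + 3) (by omega) (by omega))
      (by have := hR1 (k + 3) (by omega) (by omega); linarith)
    unfold CE_P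
    split_ifs with hU hU' hU'
    · apply ENNReal.ofReal_le_ofReal
      have hF : CE_F G i j k c b z (updH G z s) = CE_fo G c ‖z - G.x i‖ := by
        unfold CE_F
        rw [hik.1]
        simp
      have e1 := CE_A_eq G i j k u g m s (updH G z s) 0 0 0 (by rw [hik.2]; rfl)
        (by rw [hi3.2]; rfl) (by rw [hj3.2]; rfl)
      rw [hF, e1]
      have h4 : CE_fo G c ‖z - G.x i‖ ≤ g := by
        refine le_trans ?_ N.g1
        unfold CE_fo sr
        have h5 : Real.log ‖z - G.x i‖ ≤ Real.log (2 * G.r) :=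
          Real.log_le_log (by linarith) (by linarith)
        have h6 : Real.log ((G.R' - G.r) / (2 * G.r)) =
            Real.log (G.R' - G.r) - Real.log (2 * G.r) := by
          rw [Real.log_div (by linarith [N.big]) (by linarith)]
        rw [h6]
        have h7 := mul_le_mul_of_nonneg_left h5 N.c0
        linarith
      have hA := CE_A_nonneg N m s
      have h5 := mul_le_mul_of_nonneg_left h4 hA
      have e2 : CE_A G i j k u g (m + 1) s = CE_A G i j k u g m s * g := by
        unfold CE_A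
        ring
      rw [e2]
      calc _ = CE_A G i j k u g m s * CE_fo G c ‖z - G.x i‖ := by ring
        _ ≤ _ := h5
    · exfalso
      exact hU' ⟨((CE_mem_U G z s i).1 hU.1).1, ((CE_mem_U G z s j).1 hU.2).1⟩
    · exact zero_le
    · exact le_refl _

theorem CE_log_lt {a b : ℝ} (ha : 0 < a) (hab : a < b) : Real.log a < Real.log b :=
  Real.log_lt_log ha hab

theorem CE_tt (G : Geo) (q : ℕ) (h1 : 0 < G.ρ - G.h) (h2 : 0 < G.R q) :
    tt G q = Real.log (G.R q) - Real.log (G.ρ - G.h) := by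
  unfold tt
  rw [Real.log_div h2.ne' h1.ne']

theorem CE_num {G : Geo} (hG : G.OK) {i j : Fin G.J} {k : ℕ}
    (hk : 1 ≤ k) (hkK : k + 4 ≤ G.K) {u : ℝ} (hu : 0 < u) (hu1 : u < 1)
    (hij : 2 * G.R (k + 2) < ‖G.x i - G.x j‖) (hij' : ‖G.x i - G.x j‖ ≤ 2 * G.R (k + 1)) :
    CE_Num G i j k u (c2 G k u) (1 - c2 G k u * s0 G k) (1 - c2 G k u * sr G) := by
  have hh := hG.hpos
  have hρ := hG.hρ
  have hρ0 : 0 < G.ρ := by linarith
  have a01 : 8 * G.R k ≤ G.R (k - 1) := by
    have h1 := hG.dec (k - 1) (by omega)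
    have h2 : k - 1 + 1 = k := by omega
    rwa [h2] at h1
  have a12 := hG.dec k (by omega)
  have a23 := hG.dec (k + 1) (by omega)
  have a34 := hG.dec (k + 2) (by omega)
  have a45 := hG.dec (k + 3) (by omega)
  have a5 : G.ρ ≤ G.R (k + 3 + 1) := CE_R_ge' hG (by omega)
  have a0 := CE_R_le hG (k - 1) (by omega)
  have e12 : k + 1 + 1 = k + 2 := by omega
  have e23 : k + 2 + 1 = k + 3 := by omega
  rw [e12] at a23
  rw [e23] at a34
  have a4 : 8 * G.ρ ≤ G.R (k + 3) := by linarith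
  have hr : 0 < G.r := by linarith
  have hbig := hG.big
  have hρh : 0 < G.ρ - G.h := by linarith
  have hRk : 0 < G.R k - G.h := by linarith
  have hRk1 : 0 < G.R (k - 1) + G.h := by linarith
  have hRr : 0 < G.R' - G.r := by linarith
  have es1 : s1 G k = Real.log (G.R' - G.r) - Real.log (G.R k - G.h) := by
    unfold s1
    rw [Real.log_div hRr.ne' hRk.ne']
  have es0 : s0 G k = Real.log (G.R' - G.r) - Real.log (G.R (k - 1) + G.h) := by
    unfold s0
    rw [Real.log_div hRr.ne' hRk1.ne']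
  have esr : sr G = Real.log (G.R' - G.r) - Real.log (2 * G.r) := by
    unfold sr
    rw [Real.log_div hRr.ne' (by linarith)]
  have h10 : s0 G k < s1 G k := by
    rw [es1, es0]
    have := CE_log_lt hRk (show G.R k - G.h < G.R (k - 1) + G.h by linarith)
    linarith
  have h1r : sr G ≤ s1 G k := by
    rw [es1, esr]
    have := Real.log_le_log hRk (show G.R k - G.h ≤ 2 * G.r by linarith)
    linarith
  have hs0 : 0 < s0 G k := by
    rw [es0]
    have := CE_log_lt hRk1 (show G.R (k - 1) + G.h < G.R' - G.r by linarith)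
    linarith
  have hD : 0 < s1 G k - u * s0 G k := by
    have h1 : u * s0 G k < 1 * s0 G k := mul_lt_mul_of_pos_right hu1 hs0
    linarith
  have hc : 0 ≤ c2 G k u := by
    unfold c2
    exact div_nonneg (by linarith) hD.le
  have hcD : c2 G k u * (s1 G k - u * s0 G k) = 1 - u := by
    unfold c2
    rw [div_mul_cancel₀ _ hD.ne']
  have hb : 0 ≤ 1 - c2 G k u * s0 G k := by
    have h1 : (1 - c2 G k u * s0 G k) * (s1 G k - u * s0 G k) = s1 G k - s0 G k := by
      calc (1 - c2 G k u * s0 G k) * (s1 G k - u * s0 G k)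
          = (s1 G k - u * s0 G k) - s0 G k * (c2 G k u * (s1 G k - u * s0 G k)) := by ring
        _ = _ := by rw [hcD]; ring
    by_contra hneg
    have h2 := mul_neg_of_neg_of_pos (not_le.1 hneg) hD
    linarith
  have hg : 0 ≤ 1 - c2 G k u * sr G := by
    have h1 : (1 - c2 G k u * sr G) * (s1 G k - u * s0 G k) =
        u * (s1 G k - s0 G k) + (1 - u) * (s1 G k - sr G) := by
      calc (1 - c2 G k u * sr G) * (s1 G k - u * s0 G k)
          = (s1 G k - u * s0 G k) - sr G * (c2 G k u * (s1 G k - u * s0 G k)) := by ring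
        _ = _ := by rw [hcD]; ring
    have h3 : 0 < u * (s1 G k - s0 G k) := mul_pos hu (by linarith)
    have h4 : 0 ≤ (1 - u) * (s1 G k - sr G) := mul_nonneg (by linarith) (by linarith)
    by_contra hneg
    have h2 := mul_neg_of_neg_of_pos (not_le.1 hneg) hD
    linarith
  have hub : u * (1 - c2 G k u * s0 G k) = 1 - c2 G k u * s1 G k := by
    linear_combination hcD
  have htt : ∀ q, q ≤ k + 3 → k + 2 ≤ q → 0 < tt G q ∧
      tt G q = Real.log (G.R q) - Real.log (G.ρ - G.h) := by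
    intro q hq1 hq2
    have h1 : 0 < G.R q ∧ G.ρ < G.R q := by
      have h2 : q = k + 2 ∨ q = k + 3 := by omega
      rcases h2 with h2 | h2 <;> rw [h2] <;> constructor <;> linarith
    have h3 := CE_tt G q hρh h1.1
    refine ⟨?_, h3⟩
    rw [h3]
    have := CE_log_lt hρh (show G.ρ - G.h < G.R q by linarith [h1.2])
    linarith
  obtain ⟨ht2, et2⟩ := htt (k + 2) (by omega) (by omega)
  obtain ⟨ht3, et3⟩ := htt (k + 3) (by omega) (by omega)
  have hmu : mu G (k + 3) = tt G (k + 2) / tt G (k + 3) := by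
    unfold mu
    have h2 : k + 3 - 1 = k + 2 := by omega
    rw [h2]
  refine ⟨hh, hρ, a01, a12, a23, a34, a4, a0, hbig, hG.xs i, hG.xs j, hij, hij', hu, hc, hb, hg,
    le_refl _, ?_, ?_, ?_, ?_, ?_, ?_⟩
  · rw [hmu]
    exact div_pos ht2 ht3
  · intro t ht
    rw [hub, es1]
    unfold CE_fo
    have h1 := CE_log_lt hRk ht
    have h2 := mul_le_mul_of_nonneg_left h1.le hc
    linarith
  · intro t ht1 ht2'
    rw [es0]
    unfold CE_fo
    have h1 : Real.log t ≤ Real.log (G.R (k - 1) + G.h) :=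
      Real.log_le_log (by linarith) ht2'.le
    have h2 := mul_le_mul_of_nonneg_left h1 hc
    linarith
  · intro t ht1 ht2'
    rw [hmu]
    unfold CE_mi
    have h1 : tt G (k + 2) / tt G (k + 3) * ((Real.log t - Real.log (G.ρ - G.h)) / tt G (k + 2)) =
        (Real.log t - Real.log (G.ρ - G.h)) / tt G (k + 3) := by
      field_simp
    rw [h1, div_le_one ht3, et3]
    have h2 : Real.log t ≤ Real.log (G.R (k + 3)) := Real.log_le_log (by linarith) ht2'
    linarith
  · intro t ht
    unfold CE_mi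
    rw [le_div_iff₀ ht2, one_mul, et2]
    have h2 : Real.log (G.R (k + 2)) ≤ Real.log t := Real.log_le_log (by linarith) ht
    linarith
  · intro t ht
    unfold CE_mi
    apply div_nonneg _ ht2.le
    have h2 : Real.log (G.ρ - G.h) ≤ Real.log t := Real.log_le_log hρh ht.le
    linarith

open Classical in
theorem super_pair (G : Geo) (hG : G.OK) {ν : Measure ℂ} (hν : RotStep ν G.h) (i j : Fin G.J)
    (k : ℕ) (hk : 1 ≤ k) (hkK : k + 4 ≤ G.K) (u : ℝ) (hu : 0 < u) (hu1 : u < 1)
    (hij : 2 * G.R (k + 2) < ‖G.x i - G.x j‖) (hij' : ‖G.x i - G.x j‖ ≤ 2 * G.R (k + 1)) :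
    ∃ Pa, SuperC G ν Pa (fun m s => if i ∈ s.U ∧ j ∈ s.U then
      ENNReal.ofReal (u ^ (s.cnt i k) * mu G (k + 3) ^ (s.cnt i (k + 3) + s.cnt j (k + 3)) *
        (1 - c2 G k u * sr G) ^ m) else 0) := by
  have N := CE_num hG hk hkK hu hu1 hij hij'
  refine ⟨_, CE_superC hν hk hkK N (fun q hq => CE_R_le hG q hq) ?_⟩
  intro q hq1 hqK
  have h1 := hG.dec (q - 1) (by omega)
  have h2 : q - 1 + 1 = q := by omega
  rw [h2] at h1
  have h3 := CE_R_le hG (q - 1) (by omega)
  linarith

end Pool.Agent.helper32.EB
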