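import Pool.Agent.helper32.EB.Defs2

/-! # BT project (MP_b57423_pr), module PF: iteration of a one step inequality -/

open MeasureTheory ProbabilityTheory Filter Topology
open scoped ENNReal NNReal

namespace Pool.Agent.helper32.EB

theorem PF_run_congr {S : Type*} (g : S → ℂ → S) (s0 : S) (y y' : ℕ → ℂ) (N : ℕ)
    (h : ∀ k < N, y k = y' k) : run g s0 y N = run g s0 y' N := by
  induction N with
  | zero => rfl
  | succ N ih =>
    simp only [run]
    rw [ih (fun k hk => h k (by omega)), h N (by omega)]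

open Classical in
/-- extension of a finite tuple of steps by zero -/
noncomputable def PF_ext (N : ℕ) (y : (i : Finset.range N) → ℂ) (k : ℕ) : ℂ :=
  if h : k ∈ Finset.range N then y ⟨k, h⟩ else 0

theorem PF_ext_meas (N k : ℕ) : Measurable (fun y => PF_ext N y k) := by
  unfold PF_ext
  by_cases h : k ∈ Finset.range N
  · simp only [h, dite_true]
    exact measurable_pi_apply _
  · simp only [h, dite_false]
    exact measurable_const

theorem PF_run_meas {S : Type*} [MeasurableSpace S] (g : S → ℂ → S)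
    (hg : Measurable (fun p : S × ℂ => g p.1 p.2)) (s0 : S) (N n : ℕ) :
    Measurable (fun y => run g s0 (PF_ext N y) n) := by
  induction n with
  | zero => exact measurable_const
  | succ n ih =>
    simp only [run]
    exact hg.comp (ih.prodMk (PF_ext_meas N n))

theorem PF_run_meas' {S : Type*} [MeasurableSpace S] {Ω : Type*} [MeasurableSpace Ω]
    (g : S → ℂ → S) (hg : Measurable (fun p : S × ℂ => g p.1 p.2)) (s0 : S)
    (Y : ℕ → Ω → ℂ) (hY : ∀ k, Measurable (Y k)) (n : ℕ) :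
    Measurable (fun ω => run g s0 (fun k => Y k ω) n) := by
  induction n with
  | zero => exact measurable_const
  | succ n ih =>
    simp only [run]
    exact hg.comp (ih.prodMk (hY n))

theorem PF_indep {S : Type*} [MeasurableSpace S] {Ω : Type*} [MeasurableSpace Ω]
    {P : Measure Ω} {ν : Measure ℂ} {Y : ℕ → Ω → ℂ} (hY : IID P ν Y) (g : S → ℂ → S)
    (hg : Measurable (fun p : S × ℂ => g p.1 p.2)) (s0 : S) (N : ℕ) :
    IndepFun (fun ω => run g s0 (fun k => Y k ω) N) (Y N) P := by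
  have h1 : IndepFun (fun ω (i : Finset.range N) => Y i ω) (fun ω (i : ({N} : Finset ℕ)) => Y i ω) P := by
    refine hY.indep.indepFun_finset (Finset.range N) {N} ?_ hY.meas
    rw [Finset.disjoint_singleton_right]
    simp
  have hpm : Measurable (fun y : (({N} : Finset ℕ)) → ℂ => y ⟨N, Finset.mem_singleton_self N⟩) := by
    exact measurable_pi_apply (⟨N, Finset.mem_singleton_self N⟩ : ({N} : Finset ℕ))
  have h2 := h1.comp (φ := fun y => run g s0 (PF_ext N y) N)
    (ψ := fun y : (({N} : Finset ℕ)) → ℂ => y ⟨N, Finset.mem_singleton_self N⟩)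
    (PF_run_meas g hg s0 N N) hpm
  have h3 : ((fun y => run g s0 (PF_ext N y) N) ∘ fun ω (i : Finset.range N) => Y i ω) =
      fun ω => run g s0 (fun k => Y k ω) N := by
    funext ω
    simp only [Function.comp]
    apply PF_run_congr
    intro k hk
    simp [PF_ext, hk]
  rw [h3] at h2
  exact h2

theorem iter_bound {S : Type*} [MeasurableSpace S] {Ω : Type*} [MeasurableSpace Ω]
    {P : Measure Ω} [IsProbabilityMeasure P] {ν : Measure ℂ} {h : ℝ} (hν : RotStep ν h)
    {Y : ℕ → Ω → ℂ} (hY : IID P ν Y) (g : S → ℂ → S)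
    (hg : Measurable (fun p : S × ℂ => g p.1 p.2)) (Φ : S → ℝ≥0∞) (hΦ : Measurable Φ)
    (Va : S → Prop) (hVa : ∀ s, Va s → ∀ y, ‖y‖ < h → Va (g s y)) (c : ℝ≥0∞)
    (hstep : ∀ s, Va s → ∫⁻ y, Φ (g s y) ∂ν ≤ c * Φ s) (s0 : S) (hs0 : Va s0) (N : ℕ) :
    ∫⁻ ω, Φ (run g s0 (fun k => Y k ω) N) ∂P ≤ c ^ N * Φ s0 := by
  have hprob := hν.prob
  have hbd : ∀ᵐ ω ∂P, ∀ k, ‖Y k ω‖ < h := by
    rw [ae_all_iff]
    intro k
    have h1 : ∀ᵐ y ∂(P.map (Y k)), ‖y‖ < h := by
      rw [hY.law k]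
      exact hν.bdd
    exact ae_of_ae_map (hY.meas k).aemeasurable h1
  have hva : ∀ ω, (∀ k, ‖Y k ω‖ < h) → ∀ n, Va (run g s0 (fun k => Y k ω) n) := by
    intro ω hω n
    induction n with
    | zero => exact hs0
    | succ n ih => exact hVa _ ih _ (hω n)
  induction N with
  | zero => simp [run]
  | succ N ih =>
    have hXm := PF_run_meas' g hg s0 Y hY.meas N
    have hind := PF_indep hY g hg s0 N
    have hmap := (indepFun_iff_map_prod_eq_prod_map_map hXm.aemeasurable
      (hY.meas N).aemeasurable).1 hind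
    have hF : Measurable (fun p : S × ℂ => Φ (g p.1 p.2)) := hΦ.comp hg
    have e1 : ∫⁻ ω, Φ (run g s0 (fun k => Y k ω) (N + 1)) ∂P =
        ∫⁻ ω, ∫⁻ y, Φ (g (run g s0 (fun k => Y k ω) N) y) ∂ν ∂P := by
      calc ∫⁻ ω, Φ (run g s0 (fun k => Y k ω) (N + 1)) ∂P
          = ∫⁻ p, Φ (g p.1 p.2) ∂(P.map (fun ω => (run g s0 (fun k => Y k ω) N, Y N ω))) := by
            rw [lintegral_map hF (hXm.prodMk (hY.meas N))]
            rfl
        _ = ∫⁻ x, ∫⁻ y, Φ (g x y) ∂ν ∂(P.map (fun ω => run g s0 (fun k => Y k ω) N)) := by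
            rw [hmap, hY.law N, lintegral_prod _ hF.aemeasurable]
        _ = ∫⁻ ω, ∫⁻ y, Φ (g (run g s0 (fun k => Y k ω) N) y) ∂ν ∂P := by
            rw [lintegral_map hF.lintegral_prod_right' hXm]
    rw [e1]
    calc ∫⁻ ω, ∫⁻ y, Φ (g (run g s0 (fun k => Y k ω) N) y) ∂ν ∂P
        ≤ ∫⁻ ω, c * Φ (run g s0 (fun k => Y k ω) N) ∂P := by
          apply lintegral_mono_ae
          filter_upwards [hbd] with ω hω
          exact hstep _ (hva ω hω N)
      _ = c * ∫⁻ ω, Φ (run g s0 (fun k => Y k ω) N) ∂P := by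
          exact lintegral_const_mul c (hΦ.comp hXm)
      _ ≤ c * (c ^ N * Φ s0) := by gcongr
      _ = c ^ (N + 1) * Φ s0 := by rw [pow_succ]; ring

end Pool.Agent.helper32.EB
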