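import Pool.Agent.helper32.EB.Defs2
import Pool.Agent.helper97.BT.NA
import Pool.Agent.helper6.BT.NC

/-! # BT project (MP_b57423_pr), module ND: the sum over the pairs -/

open MeasureTheory ProbabilityTheory Filter Topology
open scoped ENNReal NNReal

namespace Pool.Agent.helper32.EB

/-! ### Elementary inequalities -/

theorem ND_log_low (m : ℝ) (hm : 0 < m) : 1 / (m + 1) ≤ Real.log ((m + 1) / m) := by
  have h1 := Real.one_sub_inv_le_log_of_pos (show 0 < (m + 1) / m by positivity)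
  have h2 : 1 - ((m + 1) / m)⁻¹ = 1 / (m + 1) := by
    field_simp
    ring
  rwa [h2] at h1

theorem ND_log_up (m : ℝ) (hm : 0 < m) : -Real.log (m / (m + 1)) ≤ 1 / m := by
  have h1 := Real.log_le_sub_one_of_pos (show 0 < (m + 1) / m by positivity)
  have h2 : (m + 1) / m - 1 = 1 / m := by
    field_simp
    ring
  rw [h2] at h1
  have h3 : m / (m + 1) = ((m + 1) / m)⁻¹ := by rw [inv_div]
  rw [h3, Real.log_inv, neg_neg]
  exact h1

/-- the number `a*` -/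
noncomputable def ND_as (ζ γA : ℝ) : ℝ := -(2 * γA / ζ * Real.log (1 - ζ / (1 - 99 * ζ)))

theorem ND_as_le (ζ γA : ℝ) (hζ : 0 < ζ) (hζ' : ζ ≤ 1 / 2000) (hγ : 0 < γA) :
    ND_as ζ γA ≤ 2 * γA / (1 - 100 * ζ) := by
  unfold ND_as
  have hκ : 0 < 1 - 99 * ζ := by linarith
  have hκ' : 0 < 1 - 100 * ζ := by linarith
  have hκn := hκ.ne'
  have hκn' := hκ'.ne'
  have h0 : 1 - ζ / (1 - 99 * ζ) = (1 - 100 * ζ) / (1 - 99 * ζ) := by
    rw [eq_div_iff hκn, sub_mul, div_mul_cancel₀ _ hκn]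
    ring
  have h1 := Real.one_sub_inv_le_log_of_pos (show 0 < (1 - 100 * ζ) / (1 - 99 * ζ) by positivity)
  rw [inv_div] at h1
  rw [h0]
  have h2 : 0 < 2 * γA / ζ := by positivity
  have h3 := mul_le_mul_of_nonneg_left h1 h2.le
  have h4 : 2 * γA / ζ * (1 - (1 - 99 * ζ) / (1 - 100 * ζ)) = -(2 * γA / (1 - 100 * ζ)) := by
    have h5 : 1 - (1 - 99 * ζ) / (1 - 100 * ζ) = -(ζ / (1 - 100 * ζ)) := by
      rw [eq_comm, ← neg_div, div_eq_iff hκn', sub_mul, div_mul_cancel₀ _ hκn']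
      ring
    rw [h5]
    have h6 : ζ ≠ 0 := hζ.ne'
    field_simp
  linarith

/-- the normalised constant `e` -/
noncomputable def ND_e (ζ γA : ℝ) : ℝ := γA / ((1 - 99 * ζ) * (1 - 100 * ζ))

theorem ND_e_pos (ζ γA : ℝ) (hζ : 0 < ζ) (hζ' : ζ ≤ 1 / 2000) (hγ : 0 < γA) :
    0 < ND_e ζ γA := by
  unfold ND_e
  have hκ : 0 < 1 - 99 * ζ := by linarith
  have hκ' : 0 < 1 - 100 * ζ := by linarith
  positivity

theorem ND_e_le (ζ γA : ℝ) (hζ : 0 < ζ) (hζ' : ζ ≤ 1 / 2000)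
    (hγζ : γA + 300 * ζ ≤ 1) : ND_e ζ γA ≤ 1 := by
  unfold ND_e
  have hκ : 0 < 1 - 99 * ζ := by linarith
  have hκ' : 0 < 1 - 100 * ζ := by linarith
  rw [div_le_one (by positivity)]
  nlinarith

theorem ND_as_le' (ζ γA : ℝ) (hζ : 0 < ζ) (hζ' : ζ ≤ 1 / 2000) (hγ : 0 < γA) :
    ND_as ζ γA ≤ 2 * ND_e ζ γA * (1 - 99 * ζ) := by
  have h1 := ND_as_le ζ γA hζ hζ' hγ
  have hκ : 0 < 1 - 99 * ζ := by linarith
  have hκ' : 0 < 1 - 100 * ζ := by linarith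
  have h2 : 2 * ND_e ζ γA * (1 - 99 * ζ) = 2 * γA / (1 - 100 * ζ) := by
    unfold ND_e
    field_simp
  rwa [h2]

theorem ND_DL (ζ γA : ℝ) (hζ : 0 < ζ) (hζ' : ζ ≤ 1 / 2000) (K k : ℕ) :
    DL ζ γA K k = 2 * ((1 - 100 * ζ) / K) * ND_e ζ γA * ((K - k : ℝ) * (K - k + 1)) := by
  unfold DL ND_e
  have hκ : 0 < 1 - 99 * ζ := by linarith
  have hκ' : 0 < 1 - 100 * ζ := by linarith
  field_simp

/-- bound of the rate in case (b) -/
theorem ND_rate_b (ζ γA : ℝ) (hζ : 0 < ζ) (hζ' : ζ ≤ 1 / 2000) (hγ : 0 < γA)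
    (hγζ : γA + 300 * ζ ≤ 1) (K : ℕ) (hK : 100 / ζ ≤ K) (l : ℕ) (hl : l ≤ 3) :
    -(2 * ((1 - ζ) * DL ζ γA K l)) * Real.log ((K - l + 1 : ℝ) / (K - l)) +
      2 * ND_as ζ γA ≤ (41 / 5) * ζ := by
  have hK0 : (200000 : ℝ) ≤ K := by
    refine le_trans ?_ hK
    rw [le_div_iff₀ hζ]
    linarith
  have hKpos : (0 : ℝ) < K := by linarith
  have hl' : (l : ℝ) ≤ 3 := by exact_mod_cast hl
  have hl0 : (0 : ℝ) ≤ l := Nat.cast_nonneg l
  have he := ND_e_pos ζ γA hζ hζ' hγ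
  have he1 := ND_e_le ζ γA hζ hζ' hγζ
  have has := ND_as_le' ζ γA hζ hζ' hγ
  have hlog := ND_log_low (K - l : ℝ) (by linarith)
  rw [ND_DL ζ γA hζ hζ' K l]
  set σ : ℝ := (1 - 100 * ζ) / K with hσ
  have hσ0 : 0 < σ := by
    rw [hσ]
    apply div_pos _ hKpos
    linarith
  have hσK : K * σ = 1 - 100 * ζ := by
    rw [hσ]
    field_simp
  have hσζ : 100 * σ ≤ ζ := by
    have h1 : 100 ≤ K * ζ := by
      rwa [div_le_iff₀ hζ] at hK
    have h2 : 100 * σ * K ≤ ζ * K := by nlinarith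
    exact le_of_mul_le_mul_right h2 hKpos
  set e := ND_e ζ γA with hedef
  have h1 : (2 * σ * e) * ((K - l : ℝ)) ≤
      (2 * σ * e * ((K - l : ℝ) * (K - l + 1))) * Real.log ((K - l + 1 : ℝ) / (K - l)) := by
    have h2 : 0 ≤ 2 * σ * e * ((K - l : ℝ) * (K - l + 1)) := by
      apply mul_nonneg (by positivity)
      apply mul_nonneg <;> linarith
    have h3 := mul_le_mul_of_nonneg_left hlog h2
    have h4 : 2 * σ * e * ((K - l : ℝ) * (K - l + 1)) * (1 / (K - l + 1 : ℝ)) =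
        (2 * σ * e) * ((K - l : ℝ)) := by
      have h5 : (K - l + 1 : ℝ) ≠ 0 := by linarith
      field_simp
    linarith
  have h2 : 2 * (1 - ζ) * ((2 * σ * e) * ((K - l : ℝ))) ≤
      2 * (1 - ζ) * ((2 * σ * e * ((K - l : ℝ) * (K - l + 1))) *
        Real.log ((K - l + 1 : ℝ) / (K - l))) :=
    mul_le_mul_of_nonneg_left h1 (by linarith)
  have h3 : 2 * (2 * e * (1 - 99 * ζ)) - 2 * (1 - ζ) * ((2 * σ * e) * ((K - l : ℝ))) =
      4 * e * (ζ + ζ * (1 - 100 * ζ) + (1 - ζ) * σ * l) := by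
    have h4 : 2 * (1 - ζ) * ((2 * σ * e) * ((K - l : ℝ))) =
        4 * e * ((1 - ζ) * (K * σ) - (1 - ζ) * σ * l) := by ring
    rw [h4, hσK]
    ring
  have h4 : (1 - ζ) * σ * l ≤ 3 * σ := by
    have h5 : (1 - ζ) * σ ≤ σ := by nlinarith
    nlinarith
  have h5 : ζ + ζ * (1 - 100 * ζ) + (1 - ζ) * σ * l ≤ 2 * ζ + 3 * σ := by nlinarith
  have h6 : 0 ≤ ζ + ζ * (1 - 100 * ζ) + (1 - ζ) * σ * l := by
    have : 0 ≤ (1 - ζ) * σ * l := by
      apply mul_nonneg (mul_nonneg (by linarith) hσ0.le) hl0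
    nlinarith
  have h7 : 4 * e * (ζ + ζ * (1 - 100 * ζ) + (1 - ζ) * σ * l) ≤
      4 * (ζ + ζ * (1 - 100 * ζ) + (1 - ζ) * σ * l) := by nlinarith
  calc -(2 * ((1 - ζ) * (2 * σ * e * ((K - l : ℝ) * (K - l + 1))))) *
        Real.log ((K - l + 1 : ℝ) / (K - l)) + 2 * ND_as ζ γA
      = 2 * ND_as ζ γA - 2 * (1 - ζ) * ((2 * σ * e * ((K - l : ℝ) * (K - l + 1))) *
        Real.log ((K - l + 1 : ℝ) / (K - l))) := by ring
    _ ≤ 2 * (2 * e * (1 - 99 * ζ)) - 2 * (1 - ζ) * ((2 * σ * e) * ((K - l : ℝ))) := by linarith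
    _ = 4 * e * (ζ + ζ * (1 - 100 * ζ) + (1 - ζ) * σ * l) := h3
    _ ≤ (41 / 5) * ζ := by linarith

/-- bound of the rate in case (c) -/
theorem ND_rate_c (ζ γA : ℝ) (hζ : 0 < ζ) (hζ' : ζ ≤ 1 / 2000) (hγ : 0 < γA)
    (hγζ : γA + 300 * ζ ≤ 1) (K : ℕ) (hK : 100 / ζ ≤ K) (k : ℕ) (hkK : k + 4 ≤ K) :
    -((1 + ζ) * DL ζ γA K k) * Real.log ((K - k : ℝ) / (K - k + 1)) +
      -(2 * ((1 - ζ) * DL ζ γA K (k + 3))) * Real.log ((K - (k + 3 : ℕ) + 1 : ℝ) / (K - (k + 3 : ℕ)))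
      + ND_as ζ γA - 2 * (k + 1 : ℝ) * ((1 - 100 * ζ) / K) ≤ (41 / 5) * ζ := by
  have hK0 : (200000 : ℝ) ≤ K := by
    refine le_trans ?_ hK
    rw [le_div_iff₀ hζ]
    linarith
  have hKpos : (0 : ℝ) < K := by linarith
  have hkK' : (k : ℝ) + 4 ≤ K := by exact_mod_cast hkK
  have hk0 : (0 : ℝ) ≤ k := Nat.cast_nonneg k
  have he := ND_e_pos ζ γA hζ hζ' hγ
  have he1 := ND_e_le ζ γA hζ hζ' hγζ
  have has := ND_as_le' ζ γA hζ hζ' hγ
  have hlog1 := ND_log_up (K - k : ℝ) (by linarith)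
  have hlog2 := ND_log_low (K - (k + 3 : ℕ) : ℝ) (by push_cast; linarith)
  rw [ND_DL ζ γA hζ hζ' K k, ND_DL ζ γA hζ hζ' K (k + 3)]
  set σ : ℝ := (1 - 100 * ζ) / K with hσ
  have hσ0 : 0 < σ := by
    rw [hσ]
    apply div_pos _ hKpos
    linarith
  have hσK : K * σ = 1 - 100 * ζ := by
    rw [hσ]
    field_simp
  have hσζ : 100 * σ ≤ ζ := by
    have h1 : 100 ≤ K * ζ := by
      rwa [div_le_iff₀ hζ] at hK
    have h2 : 100 * σ * K ≤ ζ * K := by nlinarith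
    exact le_of_mul_le_mul_right h2 hKpos
  set e := ND_e ζ γA with hedef
  push_cast at hlog2 ⊢
  set Q : ℝ := K - k with hQ
  have hQ4 : 4 ≤ Q := by linarith
  have hQ3 : (K : ℝ) - (k + 3) = Q - 3 := by rw [hQ]; ring
  rw [hQ3] at hlog2 ⊢
  have h1 : (2 * σ * e * (Q * (Q + 1))) * (-Real.log (Q / (Q + 1))) ≤ 2 * σ * e * (Q + 1) := by
    have h2 : 0 ≤ 2 * σ * e * (Q * (Q + 1)) := by positivity
    have h3 := mul_le_mul_of_nonneg_left hlog1 h2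
    have h4 : 2 * σ * e * (Q * (Q + 1)) * (1 / Q) = 2 * σ * e * (Q + 1) := by
      have h5 : Q ≠ 0 := by linarith
      field_simp
    linarith
  have h1' : 2 * σ * e * (Q - 3) ≤
      (2 * σ * e * ((Q - 3) * (Q - 3 + 1))) * Real.log ((Q - 3 + 1) / (Q - 3)) := by
    have h2 : 0 ≤ 2 * σ * e * ((Q - 3) * (Q - 3 + 1)) := by
      apply mul_nonneg (by positivity)
      apply mul_nonneg <;> linarith
    have h3 := mul_le_mul_of_nonneg_left hlog2 h2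
    have h4 : 2 * σ * e * ((Q - 3) * (Q - 3 + 1)) * (1 / (Q - 3 + 1)) = 2 * σ * e * (Q - 3) := by
      have h5 : Q - 3 + 1 ≠ 0 := by linarith
      field_simp
    linarith
  have h2 : (1 + ζ) * ((2 * σ * e * (Q * (Q + 1))) * (-Real.log (Q / (Q + 1)))) ≤
      (1 + ζ) * (2 * σ * e * (Q + 1)) := mul_le_mul_of_nonneg_left h1 (by linarith)
  have h2' : 2 * (1 - ζ) * (2 * σ * e * (Q - 3)) ≤
      2 * (1 - ζ) * ((2 * σ * e * ((Q - 3) * (Q - 3 + 1))) * Real.log ((Q - 3 + 1) / (Q - 3))) :=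
    mul_le_mul_of_nonneg_left h1' (by linarith)
  have hKQ : (K : ℝ) = Q + k := by rw [hQ]; ring
  have h3 : (1 + ζ) * (2 * σ * e * (Q + 1)) - 2 * (1 - ζ) * (2 * σ * e * (Q - 3)) +
      2 * e * (1 - 99 * ζ) = 2 * e * (ζ + 6 * σ + σ * ζ * (3 * Q - 5)) + 2 * e * σ * (k + 1) := by
    have h4 : 1 - 99 * ζ = ζ + (Q + k) * σ := by
      rw [← hKQ, hσK]
      ring
    rw [h4]
    ring
  have h4 : σ * ζ * (3 * Q - 5) ≤ 3 * ζ := by
    have h5 : 3 * Q - 5 ≤ 3 * K := by linarith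
    have h6 : σ * ζ * (3 * Q - 5) ≤ σ * ζ * (3 * K) :=
      mul_le_mul_of_nonneg_left h5 (by positivity)
    have h7 : σ * ζ * (3 * K) = 3 * ζ * (1 - 100 * ζ) := by
      rw [← hσK]
      ring
    nlinarith
  have h5 : 0 ≤ ζ + 6 * σ + σ * ζ * (3 * Q - 5) := by
    have h6 : 0 ≤ σ * ζ * (3 * Q - 5) := mul_nonneg (by positivity) (by linarith)
    linarith
  have h6 : 2 * e * (ζ + 6 * σ + σ * ζ * (3 * Q - 5)) ≤
      2 * (ζ + 6 * σ + σ * ζ * (3 * Q - 5)) := by nlinarith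
  have h7 : 2 * e * σ * (k + 1) ≤ 2 * (k + 1) * σ := by
    have h8 : 0 ≤ σ * (k + 1) := by positivity
    nlinarith
  calc _ = (1 + ζ) * ((2 * σ * e * (Q * (Q + 1))) * (-Real.log (Q / (Q + 1)))) -
        2 * (1 - ζ) * ((2 * σ * e * ((Q - 3) * (Q - 3 + 1))) * Real.log ((Q - 3 + 1) / (Q - 3))) +
        ND_as ζ γA - 2 * (k + 1) * σ := by ring
    _ ≤ (1 + ζ) * (2 * σ * e * (Q + 1)) - 2 * (1 - ζ) * (2 * σ * e * (Q - 3)) +
      2 * e * (1 - 99 * ζ) - 2 * (k + 1) * σ := by linarith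
    _ ≤ _ := by linarith

/-- bound of the rate in case (a) -/
theorem ND_rate_a (ζ γA : ℝ) (hζ : 0 < ζ) (hζ' : ζ ≤ 1 / 2000) (hγ : 0 < γA)
    (hγζ : γA + 300 * ζ ≤ 1) (K : ℕ) (hK : 100 / ζ ≤ K) :
    ND_as ζ γA + 4 * ((1 - 100 * ζ) / K) - 2 * (1 - 100 * ζ) ≤ (41 / 5) * ζ := by
  have hK0 : (200000 : ℝ) ≤ K := by
    refine le_trans ?_ hK
    rw [le_div_iff₀ hζ]
    linarith
  have hKpos : (0 : ℝ) < K := by linarith
  have he := ND_e_pos ζ γA hζ hζ' hγ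
  have has := ND_as_le ζ γA hζ hζ' hγ
  set σ : ℝ := (1 - 100 * ζ) / K with hσ
  have hσ0 : 0 < σ := by
    rw [hσ]
    apply div_pos _ hKpos
    linarith
  have hσK : K * σ = 1 - 100 * ζ := by
    rw [hσ]
    field_simp
  have hσζ : 100 * σ ≤ ζ := by
    have h1 : 100 ≤ K * ζ := by
      rwa [div_le_iff₀ hζ] at hK
    have h2 : 100 * σ * K ≤ ζ * K := by nlinarith
    exact le_of_mul_le_mul_right h2 hKpos
  have hκ' : 0 < 1 - 100 * ζ := by linarith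
  have h1 : 2 * γA / (1 - 100 * ζ) ≤ 2 * (1 - 200 * ζ) := by
    rw [div_le_iff₀ hκ']
    nlinarith
  linarith

/-! ### Limits -/

theorem ND_lim_mu (ζ : ℝ) (hζ : 0 < ζ) (hζ' : ζ ≤ 1 / 2000) (K : ℕ) (hK : 6 ≤ K) (l : ℕ)
    (hl1 : 1 ≤ l) (hl : l + 1 ≤ K) : Tendsto (fun L => mu (geoL ζ K L) l) atTop
      (𝓝 ((K - l + 1 : ℝ) / (K - l))) := by
  have h1 := lim_tt ζ hζ hζ' K hK (l - 1) (by omega)
  have h2 := lim_tt ζ hζ hζ' K hK l (by omega)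
  have hlK : (l : ℝ) + 1 ≤ K := by exact_mod_cast hl
  have hK0 : (0 : ℝ) < K := by
    have : (6 : ℝ) ≤ K := by exact_mod_cast hK
    linarith
  have hσ : 0 < (1 - 100 * ζ) / K := div_pos (by linarith) hK0
  have hne : (K - l : ℝ) * ((1 - 100 * ζ) / K) ≠ 0 := by
    apply mul_ne_zero
    · linarith
    · exact hσ.ne'
  have h3 := h1.div h2 hne
  have hcast : ((l - 1 : ℕ) : ℝ) = l - 1 := by
    rw [Nat.cast_sub hl1]
    simp
  rw [hcast] at h3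
  have h4 : (K - (l - 1) : ℝ) * ((1 - 100 * ζ) / K) / ((K - l : ℝ) * ((1 - 100 * ζ) / K)) =
      (K - l + 1 : ℝ) / (K - l) := by
    rw [mul_div_mul_right _ _ hσ.ne']
    congr 1
    ring
  rw [h4] at h3
  refine h3.congr' ?_
  filter_upwards [eventually_gt_atTop 0] with L hL
  unfold mu
  simp only [Pi.div_apply]
  rw [div_div_div_cancel_right₀ hL.ne']

theorem ND_lim_c (ζ : ℝ) (hζ : 0 < ζ) (hζ' : ζ ≤ 1 / 2000) (K : ℕ) (hK : 6 ≤ K) (k : ℕ)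
    (hk1 : 1 ≤ k) (hk : k + 1 ≤ K) :
    Tendsto (fun L => 1 - c2 (geoL ζ K L) k ((K - k : ℝ) / (K - k + 1)) * sr (geoL ζ K L)) atTop
      (𝓝 (1 - ζ / (1 - 99 * ζ))) := by
  have h1 := lim_s1 ζ hζ hζ' K hK k (by omega)
  have h2 := lim_s0 ζ hζ hζ' K hK k hk1 (by omega)
  have h3 := lim_sr ζ hζ hζ' K hK
  have hkK : (k : ℝ) + 1 ≤ K := by exact_mod_cast hk
  have hK0 : (0 : ℝ) < K := by
    have : (6 : ℝ) ≤ K := by exact_mod_cast hK
    linarith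
  set u : ℝ := (K - k : ℝ) / (K - k + 1) with hu
  set σ : ℝ := (1 - 100 * ζ) / K with hσ
  have hσK : K * σ = 1 - 100 * ζ := by
    rw [hσ]
    field_simp
  have hP : (0 : ℝ) < K - k + 1 := by linarith
  have hu1 : 1 - u = 1 / (K - k + 1 : ℝ) := by
    rw [hu]
    field_simp
    ring
  have hS : (ζ + k * σ) - u * (ζ + (k - 1 : ℝ) * σ) = (1 - 99 * ζ) * (1 - u) := by
    have h4 : u * (K - k + 1 : ℝ) = K - k := by
      rw [hu]
      exact div_mul_cancel₀ _ hP.ne'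
    have h5 : ((ζ + k * σ) - u * (ζ + (k - 1 : ℝ) * σ)) * (K - k + 1 : ℝ) =
        (1 - 99 * ζ) * (1 - u) * (K - k + 1 : ℝ) := by
      rw [hu1]
      have h6 : (1 - 99 * ζ) * (1 / (K - k + 1 : ℝ)) * (K - k + 1 : ℝ) = 1 - 99 * ζ := by
        field_simp
      rw [h6]
      have h7 : 1 - 99 * ζ = ζ + K * σ := by rw [hσK]; ring
      rw [h7]
      calc ((ζ + k * σ) - u * (ζ + (k - 1 : ℝ) * σ)) * (K - k + 1 : ℝ)
          = (ζ + k * σ) * (K - k + 1 : ℝ) - (u * (K - k + 1 : ℝ)) * (ζ + (k - 1 : ℝ) * σ) := by ring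
        _ = _ := by rw [h4]; ring
    exact mul_right_cancel₀ hP.ne' h5
  have hu1' : 0 < 1 - u := by
    rw [hu1]
    positivity
  have hne : (ζ + k * σ) - u * (ζ + (k - 1 : ℝ) * σ) ≠ 0 := by
    rw [hS]
    exact (mul_pos (by linarith) hu1').ne'
  have h4 := ((h3.const_mul (1 - u)).div (h1.sub (h2.const_mul u)) hne)
  have h5 : (1 - u) * ζ / ((ζ + k * σ) - u * (ζ + (k - 1 : ℝ) * σ)) = ζ / (1 - 99 * ζ) := by
    rw [hS, mul_comm (1 - 99 * ζ) (1 - u), mul_div_mul_left _ _ hu1'.ne']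
  rw [h5] at h4
  refine (h4.const_sub 1).congr' ?_
  filter_upwards [eventually_gt_atTop 0] with L hL
  unfold c2
  simp only [Pi.div_apply]
  congr 1
  have h6 : s1 (geoL ζ K L) k / L - u * (s0 (geoL ζ K L) k / L) =
      (s1 (geoL ζ K L) k - u * s0 (geoL ζ K L) k) / L := by ring
  have h7 : (1 - u) * (sr (geoL ζ K L) / L) = ((1 - u) * sr (geoL ζ K L)) / L := by ring
  rw [h6, h7, div_div_div_cancel_right₀ hL.ne']
  ring

theorem ND_lim_pow (ζ γA : ℝ) (hζ : 0 < ζ) (hζ' : ζ ≤ 1 / 2000) (hγ : 0 < γA) (f : ℝ → ℝ)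
    (hf : Tendsto f atTop (𝓝 (1 - ζ / (1 - 99 * ζ)))) :
    Tendsto (fun L => (nL ζ γA L : ℝ) / L * Real.log (f L)) atTop (𝓝 (-ND_as ζ γA)) := by
  have hκ : 0 < 1 - 99 * ζ := by linarith
  have hpos : 0 < 1 - ζ / (1 - 99 * ζ) := by
    have h1 : ζ / (1 - 99 * ζ) < 1 := by
      rw [div_lt_one hκ]
      linarith
    linarith
  have h1 := (lim_nL ζ γA hζ hγ).mul (hf.log hpos.ne')
  have h2 : 2 * γA / ζ * Real.log (1 - ζ / (1 - 99 * ζ)) = -ND_as ζ γA := by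
    unfold ND_as
    ring
  rw [h2] at h1
  exact h1

theorem ND_ev_pos (ζ : ℝ) (hζ : 0 < ζ) (hζ' : ζ ≤ 1 / 2000) (f : ℝ → ℝ)
    (hf : Tendsto f atTop (𝓝 (1 - ζ / (1 - 99 * ζ)))) : ∀ᶠ L in atTop, 0 < f L := by
  have hκ : 0 < 1 - 99 * ζ := by linarith
  have hpos : 0 < 1 - ζ / (1 - 99 * ζ) := by
    have h1 : ζ / (1 - 99 * ζ) < 1 := by
      rw [div_lt_one hκ]
      linarith
    linarith
  exact hf.eventually (lt_mem_nhds hpos)

theorem ND_pow_exp (x : ℝ) (hx : 0 < x) (n : ℕ) : x ^ n = Real.exp (n * Real.log x) := by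
  rw [Real.exp_nat_mul, Real.exp_log hx]

theorem ND_sq_exp (x : ℝ) (hx : 0 < x) (n : ℕ) (L : ℝ) (hL : 0 < L) (t : ℝ) :
    (x ^ n) ^ 2 * Real.exp (t * L) = Real.exp (L * (2 * (n / L * Real.log x) + t)) := by
  rw [ND_pow_exp x hx n, ← Real.exp_nat_mul, ← Real.exp_add]
  congr 1
  push_cast
  have h1 : L * (2 * (n / L * Real.log x) + t) = 2 * (n / L * L * Real.log x) + t * L := by ring
  rw [h1, div_mul_cancel₀ _ hL.ne']

theorem ND_claim_b (ζ γA : ℝ) (hζ : 0 < ζ) (hζ' : ζ ≤ 1 / 2000) (hγ : 0 < γA)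
    (hγζ : γA + 300 * ζ ≤ 1) (K : ℕ) (hK : 100 / ζ ≤ K) (hK6 : 6 ≤ K) (l : ℕ) (hl1 : 1 ≤ l)
    (hl : l ≤ 3) : ∀ᶠ L : ℝ in atTop,
      0 ≤ mu (geoL ζ K L) l ^ (-(2 * ((1 - ζ) * DL ζ γA K l * L))) ∧
      mu (geoL ζ K L) l ^ (-(2 * ((1 - ζ) * DL ζ γA K l * L))) ≤
        (cmx (geoL ζ K L) ^ (nL ζ γA L)) ^ 2 * Real.exp (17 / 2 * ζ * L) := by
  have hlK : (l : ℝ) + 1 ≤ K := by
    have : l + 1 ≤ K := by omega
    exact_mod_cast this
  have hmu := ND_lim_mu ζ hζ hζ' K hK6 l hl1 (by omega)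
  have hmupos : (0 : ℝ) < (K - l + 1 : ℝ) / (K - l) := div_pos (by linarith) (by linarith)
  have hcm := (lim_cm ζ hζ hζ' K hK6).1
  have h1 := ND_lim_pow ζ γA hζ hζ' hγ _ hcm
  have h2 := ((hmu.log hmupos.ne').const_mul (-(2 * ((1 - ζ) * DL ζ γA K l)))).sub
    (h1.const_mul 2)
  have h3 := ND_rate_b ζ γA hζ hζ' hγ hγζ K hK l hl
  have h4 : -(2 * ((1 - ζ) * DL ζ γA K l)) * Real.log ((K - l + 1 : ℝ) / (K - l)) -
      2 * (-ND_as ζ γA) < 17 / 2 * ζ := by linarith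
  filter_upwards [h2.eventually (gt_mem_nhds h4), hmu.eventually (lt_mem_nhds hmupos),
    ND_ev_pos ζ hζ hζ' _ hcm, eventually_gt_atTop 0] with L hL1 hL2 hL3 hL
  refine ⟨Real.rpow_nonneg hL2.le _, ?_⟩
  rw [ND_sq_exp _ hL3 _ L hL, Real.rpow_def_of_pos hL2]
  apply Real.exp_le_exp.2
  have h5 : L * (-(2 * ((1 - ζ) * DL ζ γA K l)) * Real.log (mu (geoL ζ K L) l) -
      2 * ((nL ζ γA L : ℝ) / L * Real.log (cmx (geoL ζ K L)))) ≤ L * (17 / 2 * ζ) :=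
    mul_le_mul_of_nonneg_left hL1.le hL.le
  nlinarith [h5]

theorem ND_claim_a (ζ γA : ℝ) (hζ : 0 < ζ) (hζ' : ζ ≤ 1 / 2000) (hγ : 0 < γA)
    (hγζ : γA + 300 * ζ ≤ 1) (K : ℕ) (hK : 100 / ζ ≤ K) (hK6 : 6 ≤ K) : ∀ᶠ L : ℝ in atTop,
      0 ≤ cmn (geoL ζ K L) ^ (nL ζ γA L) ∧ cmn (geoL ζ K L) ^ (nL ζ γA L) *
        Real.exp (-(2 * (K - 2 : ℝ) * ((1 - 100 * ζ) / K) * L)) ≤
        (cmx (geoL ζ K L) ^ (nL ζ γA L)) ^ 2 * Real.exp (17 / 2 * ζ * L) := by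
  have hcm := (lim_cm ζ hζ hζ' K hK6)
  have h1 := ND_lim_pow ζ γA hζ hζ' hγ _ hcm.1
  have h1' := ND_lim_pow ζ γA hζ hζ' hγ _ hcm.2
  have h2 := h1'.sub (h1.const_mul 2)
  have h3 := ND_rate_a ζ γA hζ hζ' hγ hγζ K hK
  have hK0 : (0 : ℝ) < K := by
    have : (6 : ℝ) ≤ K := by exact_mod_cast hK6
    linarith
  have hσK : 2 * (K - 2 : ℝ) * ((1 - 100 * ζ) / K) =
      2 * (1 - 100 * ζ) - 4 * ((1 - 100 * ζ) / K) := by
    field_simp
    ring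
  have h4 : -ND_as ζ γA - 2 * (-ND_as ζ γA) <
      17 / 2 * ζ + 2 * (K - 2 : ℝ) * ((1 - 100 * ζ) / K) := by
    rw [hσK]
    linarith
  filter_upwards [h2.eventually (gt_mem_nhds h4), ND_ev_pos ζ hζ hζ' _ hcm.1,
    ND_ev_pos ζ hζ hζ' _ hcm.2, eventually_gt_atTop 0] with L hL1 hL2 hL3 hL
  refine ⟨pow_nonneg hL3.le _, ?_⟩
  rw [ND_sq_exp _ hL2 _ L hL, ND_pow_exp _ hL3, ← Real.exp_add]
  apply Real.exp_le_exp.2
  have h5 : L * ((nL ζ γA L : ℝ) / L * Real.log (cmn (geoL ζ K L)) -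
      2 * ((nL ζ γA L : ℝ) / L * Real.log (cmx (geoL ζ K L)))) ≤
      L * (17 / 2 * ζ + 2 * (K - 2 : ℝ) * ((1 - 100 * ζ) / K)) :=
    mul_le_mul_of_nonneg_left hL1.le hL.le
  have h6 : L * ((nL ζ γA L : ℝ) / L * Real.log (cmn (geoL ζ K L))) =
      (nL ζ γA L : ℝ) * Real.log (cmn (geoL ζ K L)) := by
    calc L * ((nL ζ γA L : ℝ) / L * Real.log (cmn (geoL ζ K L)))
        = (nL ζ γA L : ℝ) / L * L * Real.log (cmn (geoL ζ K L)) := by ring
      _ = _ := by rw [div_mul_cancel₀ _ hL.ne']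
  linarith

theorem ND_claim_c (ζ γA : ℝ) (hζ : 0 < ζ) (hζ' : ζ ≤ 1 / 2000) (hγ : 0 < γA)
    (hγζ : γA + 300 * ζ ≤ 1) (K : ℕ) (hK : 100 / ζ ≤ K) (hK6 : 6 ≤ K) (k : ℕ) (hk1 : 1 ≤ k)
    (hkK : k + 4 ≤ K) : ∀ᶠ L : ℝ in atTop,
      0 ≤ ((K - k : ℝ) / (K - k + 1)) ^ (-((1 + ζ) * DL ζ γA K k * L)) *
            mu (geoL ζ K L) (k + 3) ^ (-(2 * ((1 - ζ) * DL ζ γA K (k + 3) * L))) *
            (1 - c2 (geoL ζ K L) k ((K - k : ℝ) / (K - k + 1)) * sr (geoL ζ K L)) ^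
              (nL ζ γA L) ∧
      ((K - k : ℝ) / (K - k + 1)) ^ (-((1 + ζ) * DL ζ γA K k * L)) *
            mu (geoL ζ K L) (k + 3) ^ (-(2 * ((1 - ζ) * DL ζ γA K (k + 3) * L))) *
            (1 - c2 (geoL ζ K L) k ((K - k : ℝ) / (K - k + 1)) * sr (geoL ζ K L)) ^
              (nL ζ γA L) * Real.exp (-(2 * (k + 1 : ℝ) * ((1 - 100 * ζ) / K) * L)) ≤
        (cmx (geoL ζ K L) ^ (nL ζ γA L)) ^ 2 * Real.exp (17 / 2 * ζ * L) := by
  have hkK' : (k : ℝ) + 4 ≤ K := by exact_mod_cast hkK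
  have hmu := ND_lim_mu ζ hζ hζ' K hK6 (k + 3) (by omega) (by omega)
  have hmupos : (0 : ℝ) < (K - (k + 3 : ℕ) + 1 : ℝ) / (K - (k + 3 : ℕ)) := by
    push_cast
    exact div_pos (by linarith) (by linarith)
  have hcm := (lim_cm ζ hζ hζ' K hK6).1
  have hc := ND_lim_c ζ hζ hζ' K hK6 k hk1 (by omega)
  have h1 := ND_lim_pow ζ γA hζ hζ' hγ _ hcm
  have h1' := ND_lim_pow ζ γA hζ hζ' hγ _ hc
  have hu : (0 : ℝ) < (K - k : ℝ) / (K - k + 1) := div_pos (by linarith) (by linarith)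
  have h2 := (((hmu.log hmupos.ne').const_mul (-(2 * ((1 - ζ) * DL ζ γA K (k + 3))))).add
    h1').sub (h1.const_mul 2)
  have h3 := ND_rate_c ζ γA hζ hζ' hγ hγζ K hK k hkK
  have h4 : -(2 * ((1 - ζ) * DL ζ γA K (k + 3))) *
      Real.log ((K - (k + 3 : ℕ) + 1 : ℝ) / (K - (k + 3 : ℕ))) + -ND_as ζ γA -
      2 * (-ND_as ζ γA) < 17 / 2 * ζ + 2 * (k + 1 : ℝ) * ((1 - 100 * ζ) / K) -
      -((1 + ζ) * DL ζ γA K k) * Real.log ((K - k : ℝ) / (K - k + 1)) := by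
    linarith
  filter_upwards [h2.eventually (gt_mem_nhds h4), hmu.eventually (lt_mem_nhds hmupos),
    ND_ev_pos ζ hζ hζ' _ hcm, ND_ev_pos ζ hζ hζ' _ hc, eventually_gt_atTop 0]
    with L hL1 hL2 hL3 hL4 hL
  refine ⟨mul_nonneg (mul_nonneg (Real.rpow_nonneg hu.le _) (Real.rpow_nonneg hL2.le _))
    (pow_nonneg hL4.le _), ?_⟩
  rw [ND_sq_exp _ hL3 _ L hL, ND_pow_exp _ hL4, Real.rpow_def_of_pos hL2,
    Real.rpow_def_of_pos hu, ← Real.exp_add, ← Real.exp_add, ← Real.exp_add]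
  apply Real.exp_le_exp.2
  have h5 := mul_le_mul_of_nonneg_left hL1.le hL.le
  have h6 : L * ((nL ζ γA L : ℝ) / L *
      Real.log (1 - c2 (geoL ζ K L) k ((K - k : ℝ) / (K - k + 1)) * sr (geoL ζ K L))) =
      (nL ζ γA L : ℝ) *
      Real.log (1 - c2 (geoL ζ K L) k ((K - k : ℝ) / (K - k + 1)) * sr (geoL ζ K L)) := by
    calc L * ((nL ζ γA L : ℝ) / L *
          Real.log (1 - c2 (geoL ζ K L) k ((K - k : ℝ) / (K - k + 1)) * sr (geoL ζ K L)))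
        = (nL ζ γA L : ℝ) / L * L *
          Real.log (1 - c2 (geoL ζ K L) k ((K - k : ℝ) / (K - k + 1)) * sr (geoL ζ K L)) := by ring
      _ = _ := by rw [div_mul_cancel₀ _ hL.ne']
  linarith

/-! ### Counting -/

theorem ND_count (ζ : ℝ) (hζ : 0 < ζ) (hζ' : ζ ≤ 1 / 2000) (K : ℕ) (hK6 : 6 ≤ K) (L : ℝ)
    (hL : 0 < L) (hJ : Real.exp (2 * (1 - 100 * ζ) * L) / 16 ≤ (geoL ζ K L).J) (q : ℕ)
    (hq : q ≤ K) (i : Fin (geoL ζ K L).J) :
    ((Finset.univ.filter (fun j => ‖(geoL ζ K L).x i - (geoL ζ K L).x j‖ ≤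
      2 * (geoL ζ K L).R q)).card : ℝ) ≤
      1600 * (geoL ζ K L).J * Real.exp (-(2 * (q : ℝ) * ((1 - 100 * ζ) / K) * L)) := by
  have hK0 : (0 : ℝ) < K := by
    have : (6 : ℝ) ≤ K := by exact_mod_cast hK6
    linarith
  have hqK : (q : ℝ) ≤ K := by exact_mod_cast hq
  set σ : ℝ := (1 - 100 * ζ) / K with hσ
  have hσ0 : 0 < σ := by
    rw [hσ]
    apply div_pos _ hK0
    linarith
  have hσK : K * σ = 1 - 100 * ζ := by
    rw [hσ]
    field_simp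
  have hR : (geoL ζ K L).R q = 2 * Real.exp (-100 * ζ * L - q * σ * L) := by
    show 2 * Real.exp (-100 * ζ * L - q * ((1 - 100 * ζ) * L / K)) = _
    congr 2
    rw [hσ]
    ring
  have h1 : Real.exp (-L) ≤ (geoL ζ K L).R q := by
    rw [hR]
    have h2 : Real.exp (-L) ≤ Real.exp (-100 * ζ * L - q * σ * L) := by
      apply Real.exp_le_exp.2
      have h3 : q * σ * L ≤ K * σ * L := by
        apply mul_le_mul_of_nonneg_right _ hL.le
        exact mul_le_mul_of_nonneg_right hqK hσ0.le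
      rw [hσK] at h3
      linarith
    have h4 := Real.exp_pos (-100 * ζ * L - q * σ * L)
    linarith
  have h2 := pair_count ζ K L i _ h1
  refine h2.trans ?_
  have h3 : 25 * ((geoL ζ K L).R q / Real.exp (-L)) ^ 2 =
      100 * (Real.exp (2 * (1 - 100 * ζ) * L) * Real.exp (-(2 * (q : ℝ) * σ * L))) := by
    rw [hR, mul_div_assoc, ← Real.exp_sub, mul_pow, ← Real.exp_nat_mul, ← Real.exp_add]
    have h4 : ((2 : ℕ) : ℝ) * (-100 * ζ * L - q * σ * L - -L) =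
        2 * (1 - 100 * ζ) * L + -(2 * (q : ℝ) * σ * L) := by
      push_cast
      ring
    rw [h4]
    ring
  rw [h3]
  have h4 : Real.exp (2 * (1 - 100 * ζ) * L) ≤ 16 * (geoL ζ K L).J := by linarith
  have h5 := mul_le_mul_of_nonneg_right h4 (Real.exp_pos (-(2 * (q : ℝ) * σ * L))).le
  calc 100 * (Real.exp (2 * (1 - 100 * ζ) * L) * Real.exp (-(2 * (q : ℝ) * σ * L)))
      ≤ 100 * (16 * (geoL ζ K L).J * Real.exp (-(2 * (q : ℝ) * σ * L))) := by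
        apply mul_le_mul_of_nonneg_left h5 (by norm_num)
    _ = _ := by ring

theorem ND_sum (G : Geo) (a c N T : ℝ) (hc : 0 ≤ c)
    (hN : ∀ i, ((Finset.univ.filter (fun j => ‖G.x i - G.x j‖ ≤ a)).card : ℝ) ≤
      1600 * G.J * N) (hT : c * N ≤ T) :
    ∑ i, ∑ j, (if ‖G.x i - G.x j‖ ≤ a then c else 0) ≤ (G.J : ℝ) ^ 2 * (1600 * T) := by
  have h1 : ∀ i, ∑ j, (if ‖G.x i - G.x j‖ ≤ a then c else 0) ≤ G.J * (1600 * T) := by
    intro i
    rw [← Finset.sum_filter, Finset.sum_const, nsmul_eq_mul]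
    calc ((Finset.univ.filter (fun j => ‖G.x i - G.x j‖ ≤ a)).card : ℝ) * c
        ≤ 1600 * G.J * N * c := mul_le_mul_of_nonneg_right (hN i) hc
      _ = 1600 * G.J * (c * N) := by ring
      _ ≤ 1600 * G.J * T := by
        apply mul_le_mul_of_nonneg_left hT
        positivity
      _ = _ := by ring
  calc ∑ i, ∑ j, (if ‖G.x i - G.x j‖ ≤ a then c else 0)
      ≤ ∑ _i : Fin G.J, (G.J : ℝ) * (1600 * T) := Finset.sum_le_sum (fun i _ => h1 i)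
    _ = _ := by
      rw [Finset.sum_const, nsmul_eq_mul, Finset.card_univ, Fintype.card_fin]
      ring

open Classical in
/-- the abstract assembly -/
theorem ND_assemble (G : Geo) (K : ℕ) (hK6 : 6 ≤ K) (R : ℕ → ℝ) (b2 b3 a : ℝ) (c : ℕ → ℝ)
    (N : ℕ → ℝ) (T : ℝ) (hb2 : 0 ≤ b2) (hb3 : 0 ≤ b3) (ha : 0 ≤ a)
    (hc : ∀ k, 1 ≤ k → k + 4 ≤ K → 0 ≤ c k) (hb2T : b2 ≤ T) (hb3T : b3 ≤ T)
    (haT : a * N (K - 2) ≤ T) (hcT : ∀ k, 1 ≤ k → k + 4 ≤ K → c k * N (k + 1) ≤ T)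
    (hN : ∀ q ≤ K, ∀ i, ((Finset.univ.filter (fun j => ‖G.x i - G.x j‖ ≤ 2 * R q)).card : ℝ) ≤
      1600 * G.J * N q) :
    ∃ BB : Fin G.J → Fin G.J → ℝ,
      (∀ i j, BB i j = a ∨ (2 * R 1 < ‖G.x i - G.x j‖ ∧ BB i j = b2) ∨
        (2 * R 2 < ‖G.x i - G.x j‖ ∧ BB i j = b3) ∨
        (∃ k, 1 ≤ k ∧ k + 4 ≤ K ∧ 2 * R (k + 2) < ‖G.x i - G.x j‖ ∧
          ‖G.x i - G.x j‖ ≤ 2 * R (k + 1) ∧ BB i j = c k)) ∧
      ∑ i, ∑ j, BB i j ≤ (G.J : ℝ) ^ 2 * ((1602 + 1600 * K) * T) := by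
  have hT : 0 ≤ T := hb2.trans hb2T
  refine ⟨fun i j => if 2 * R 1 < ‖G.x i - G.x j‖ then b2 else if 2 * R 2 < ‖G.x i - G.x j‖ then b3
    else if h : ∃ k, 1 ≤ k ∧ k + 4 ≤ K ∧ 2 * R (k + 2) < ‖G.x i - G.x j‖ ∧
          ‖G.x i - G.x j‖ ≤ 2 * R (k + 1) then c h.choose else a, ?_, ?_⟩
  · intro i j
    by_cases h1 : 2 * R 1 < ‖G.x i - G.x j‖
    · right; left
      exact ⟨h1, by simp [h1]⟩
    · by_cases h2 : 2 * R 2 < ‖G.x i - G.x j‖
      · right; right; left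
        exact ⟨h2, by simp [h1, h2]⟩
      · by_cases h3 : ∃ k, 1 ≤ k ∧ k + 4 ≤ K ∧ 2 * R (k + 2) < ‖G.x i - G.x j‖ ∧
          ‖G.x i - G.x j‖ ≤ 2 * R (k + 1)
        · right; right; right
          obtain ⟨e1, e2, e3, e4⟩ := h3.choose_spec
          refine ⟨h3.choose, e1, e2, e3, e4, ?_⟩
          simp only [if_neg h1, if_neg h2, dif_pos h3]
        · left
          simp only [if_neg h1, if_neg h2, dif_neg h3]
  · have hpt : ∀ i j, (if 2 * R 1 < ‖G.x i - G.x j‖ then b2 else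
        if 2 * R 2 < ‖G.x i - G.x j‖ then b3
        else if h : ∃ k, 1 ≤ k ∧ k + 4 ≤ K ∧ 2 * R (k + 2) < ‖G.x i - G.x j‖ ∧
          ‖G.x i - G.x j‖ ≤ 2 * R (k + 1) then c h.choose else a) ≤
        (b2 + b3) + (∑ k ∈ Finset.Icc 1 (K - 4),
          (if ‖G.x i - G.x j‖ ≤ 2 * R (k + 1) then c k else 0)) +
          (if ‖G.x i - G.x j‖ ≤ 2 * R (K - 2) then a else 0) := by
      intro i j
      have hs0 : ∀ k ∈ Finset.Icc 1 (K - 4),
          0 ≤ (if ‖G.x i - G.x j‖ ≤ 2 * R (k + 1) then c k else 0) := by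
        intro k hk
        rw [Finset.mem_Icc] at hk
        split_ifs
        · exact hc k hk.1 (by omega)
        · exact le_refl _
      have hs := Finset.sum_nonneg hs0
      have hs2 : 0 ≤ (if ‖G.x i - G.x j‖ ≤ 2 * R (K - 2) then a else 0) := by
        split_ifs
        · exact ha
        · exact le_refl _
      by_cases h1 : 2 * R 1 < ‖G.x i - G.x j‖
      · rw [if_pos h1]
        linarith
      · rw [if_neg h1]
        by_cases h2 : 2 * R 2 < ‖G.x i - G.x j‖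
        · rw [if_pos h2]
          linarith
        · rw [if_neg h2]
          by_cases h3 : ∃ k, 1 ≤ k ∧ k + 4 ≤ K ∧ 2 * R (k + 2) < ‖G.x i - G.x j‖ ∧
            ‖G.x i - G.x j‖ ≤ 2 * R (k + 1)
          · rw [dif_pos h3]
            obtain ⟨e1, e2, e3, e4⟩ := h3.choose_spec
            have hmem : h3.choose ∈ Finset.Icc 1 (K - 4) := by
              rw [Finset.mem_Icc]
              omega
            have h4 := Finset.single_le_sum hs0 hmem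
            rw [if_pos e4] at h4
            linarith
          · rw [dif_neg h3]
            have h4 : ∀ m, 2 ≤ m → m ≤ K - 2 → ‖G.x i - G.x j‖ ≤ 2 * R m := by
              intro m hm
              induction m, hm using Nat.le_induction with
              | base => intro _; exact not_lt.1 h2
              | succ m hm ih =>
                intro hmK
                have h5 := ih (by omega)
                by_contra h6
                apply h3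
                refine ⟨m - 1, by omega, by omega, ?_, ?_⟩
                · have h7 : m - 1 + 2 = m + 1 := by omega
                  rw [h7]
                  exact not_le.1 h6
                · have h7 : m - 1 + 1 = m := by omega
                  rw [h7]
                  exact h5
            have h5 := h4 (K - 2) (by omega) le_rfl
            rw [if_pos h5]
            linarith
    calc _ ≤ ∑ i, ∑ j, ((b2 + b3) + (∑ k ∈ Finset.Icc 1 (K - 4),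
          (if ‖G.x i - G.x j‖ ≤ 2 * R (k + 1) then c k else 0)) +
          (if ‖G.x i - G.x j‖ ≤ 2 * R (K - 2) then a else 0)) :=
        Finset.sum_le_sum (fun i _ => Finset.sum_le_sum (fun j _ => hpt i j))
      _ = (G.J : ℝ) ^ 2 * (b2 + b3) + ∑ k ∈ Finset.Icc 1 (K - 4),
          ∑ i, ∑ j, (if ‖G.x i - G.x j‖ ≤ 2 * R (k + 1) then c k else 0) +
          ∑ i, ∑ j, (if ‖G.x i - G.x j‖ ≤ 2 * R (K - 2) then a else 0) := by
        simp only [Finset.sum_add_distrib]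
        congr 1
        congr 1
        · simp only [Finset.sum_const, Finset.card_univ, Fintype.card_fin, nsmul_eq_mul]
          ring
        · have e1 : ∀ i : Fin G.J, ∑ j, ∑ k ∈ Finset.Icc 1 (K - 4),
              (if ‖G.x i - G.x j‖ ≤ 2 * R (k + 1) then c k else 0) =
              ∑ k ∈ Finset.Icc 1 (K - 4), ∑ j,
                (if ‖G.x i - G.x j‖ ≤ 2 * R (k + 1) then c k else 0) :=
            fun i => Finset.sum_comm
          rw [Finset.sum_congr rfl (fun i _ => e1 i)]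
          exact Finset.sum_comm
      _ ≤ (G.J : ℝ) ^ 2 * (2 * T) + ∑ k ∈ Finset.Icc 1 (K - 4), (G.J : ℝ) ^ 2 * (1600 * T) +
          (G.J : ℝ) ^ 2 * (1600 * T) := by
        gcongr with k hk
        · linarith
        · rw [Finset.mem_Icc] at hk
          exact ND_sum G _ _ (N (k + 1)) T (hc k hk.1 (by omega))
            (hN (k + 1) (by omega)) (hcT k hk.1 (by omega))
        · exact ND_sum G _ _ (N (K - 2)) T ha (hN (K - 2) (by omega)) haT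
      _ ≤ _ := by
        rw [Finset.sum_const, nsmul_eq_mul, Nat.card_Icc]
        have h1 : ((K - 4 + 1 - 1 : ℕ) : ℝ) ≤ K := by
          exact_mod_cast (by omega : K - 4 + 1 - 1 ≤ K)
        have h2 : 0 ≤ (G.J : ℝ) ^ 2 * (1600 * T) := by positivity
        have h3 := mul_le_mul_of_nonneg_right h1 h2
        linarith

theorem pair_sum (ζ γA : ℝ) (hζ : 0 < ζ) (hζ' : ζ ≤ 1 / 2000) (hγ : 0 < γA)
    (hγζ : γA + 300 * ζ ≤ 1) (K : ℕ) (hK : 100 / ζ ≤ K) :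
    ∀ᶠ L : ℝ in atTop, ∃ BB : Fin (geoL ζ K L).J → Fin (geoL ζ K L).J → ℝ,
      (∀ i j, BB i j = cmn (geoL ζ K L) ^ (nL ζ γA L) ∨
        (∃ l, 2 ≤ l ∧ l + 1 ≤ K ∧
          2 * (geoL ζ K L).R (l - 1) < ‖(geoL ζ K L).x i - (geoL ζ K L).x j‖ ∧
          BB i j = mu (geoL ζ K L) l ^ (-(2 * ((1 - ζ) * DL ζ γA K l * L)))) ∨
        (∃ k, 1 ≤ k ∧ k + 4 ≤ K ∧
          2 * (geoL ζ K L).R (k + 2) < ‖(geoL ζ K L).x i - (geoL ζ K L).x j‖ ∧
          ‖(geoL ζ K L).x i - (geoL ζ K L).x j‖ ≤ 2 * (geoL ζ K L).R (k + 1) ∧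
          BB i j = ((K - k : ℝ) / (K - k + 1)) ^ (-((1 + ζ) * DL ζ γA K k * L)) *
            mu (geoL ζ K L) (k + 3) ^ (-(2 * ((1 - ζ) * DL ζ γA K (k + 3) * L))) *
            (1 - c2 (geoL ζ K L) k ((K - k : ℝ) / (K - k + 1)) * sr (geoL ζ K L)) ^
              (nL ζ γA L))) ∧
      ∑ i, ∑ j, BB i j ≤ (geoL ζ K L).J ^ 2 * (cmx (geoL ζ K L) ^ (nL ζ γA L)) ^ 2 *
        Real.exp (9 * ζ * L) := by
  have hK0 : (200000 : ℝ) ≤ K := by
    refine le_trans ?_ hK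
    rw [le_div_iff₀ hζ]
    linarith
  have hK6 : 6 ≤ K := by
    have h1 : (6 : ℝ) ≤ K := by linarith
    exact_mod_cast h1
  have hc : ∀ᶠ L : ℝ in atTop, ∀ k ∈ Finset.Icc 1 (K - 4),
      0 ≤ ((K - k : ℝ) / (K - k + 1)) ^ (-((1 + ζ) * DL ζ γA K k * L)) *
            mu (geoL ζ K L) (k + 3) ^ (-(2 * ((1 - ζ) * DL ζ γA K (k + 3) * L))) *
            (1 - c2 (geoL ζ K L) k ((K - k : ℝ) / (K - k + 1)) * sr (geoL ζ K L)) ^
              (nL ζ γA L) ∧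
      ((K - k : ℝ) / (K - k + 1)) ^ (-((1 + ζ) * DL ζ γA K k * L)) *
            mu (geoL ζ K L) (k + 3) ^ (-(2 * ((1 - ζ) * DL ζ γA K (k + 3) * L))) *
            (1 - c2 (geoL ζ K L) k ((K - k : ℝ) / (K - k + 1)) * sr (geoL ζ K L)) ^
              (nL ζ γA L) * Real.exp (-(2 * (k + 1 : ℝ) * ((1 - 100 * ζ) / K) * L)) ≤
        (cmx (geoL ζ K L) ^ (nL ζ γA L)) ^ 2 * Real.exp (17 / 2 * ζ * L) := by
    rw [Filter.eventually_all_finset]
    intro k hk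
    rw [Finset.mem_Icc] at hk
    exact ND_claim_c ζ γA hζ hζ' hγ hγζ K hK hK6 k hk.1 (by omega)
  have hbig : ∀ᶠ L : ℝ in atTop, (1602 + 1600 * K : ℝ) ≤ Real.exp (ζ / 2 * L) := by
    have h1 : Tendsto (fun L : ℝ => Real.exp (ζ / 2 * L)) atTop atTop :=
      Real.tendsto_exp_atTop.comp (tendsto_id.const_mul_atTop (by linarith))
    exact h1.eventually (eventually_ge_atTop _)
  filter_upwards [ND_claim_b ζ γA hζ hζ' hγ hγζ K hK hK6 2 (by norm_num) (by norm_num),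
    ND_claim_b ζ γA hζ hζ' hγ hγζ K hK hK6 3 (by norm_num) (by norm_num),
    ND_claim_a ζ γA hζ hζ' hγ hγζ K hK hK6, hc, J_lower ζ hζ hζ' K, hbig,
    eventually_gt_atTop 0] with L hb2 hb3 ha hc hJ hbig hL
  obtain ⟨BB, h1, h2⟩ := ND_assemble (geoL ζ K L) K hK6 (geoL ζ K L).R _ _ _
    (fun k => ((K - k : ℝ) / (K - k + 1)) ^ (-((1 + ζ) * DL ζ γA K k * L)) *
            mu (geoL ζ K L) (k + 3) ^ (-(2 * ((1 - ζ) * DL ζ γA K (k + 3) * L))) *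
            (1 - c2 (geoL ζ K L) k ((K - k : ℝ) / (K - k + 1)) * sr (geoL ζ K L)) ^
              (nL ζ γA L))
    (fun q => Real.exp (-(2 * (q : ℝ) * ((1 - 100 * ζ) / K) * L)))
    ((cmx (geoL ζ K L) ^ (nL ζ γA L)) ^ 2 * Real.exp (17 / 2 * ζ * L))
    hb2.1 hb3.1 ha.1
    (fun k hk1 hk2 => (hc k (Finset.mem_Icc.2 ⟨hk1, by omega⟩)).1) hb2.2 hb3.2
    (by
      have h3 : ((K - 2 : ℕ) : ℝ) = K - 2 := by
        rw [Nat.cast_sub (by omega)]
        norm_num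
      rw [h3]
      exact ha.2)
    (by
      intro k hk1 hk2
      have h3 := (hc k (Finset.mem_Icc.2 ⟨hk1, by omega⟩)).2
      push_cast
      exact h3)
    (fun q hq i => ND_count ζ hζ hζ' K hK6 L hL hJ q hq i)
  refine ⟨BB, ?_, ?_⟩
  · intro i j
    rcases h1 i j with h3 | h3 | h3 | h3
    · left; exact h3
    · right; left
      exact ⟨2, le_refl _, by omega, h3.1, h3.2⟩
    · right; left
      exact ⟨3, by norm_num, by omega, h3.1, h3.2⟩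
    · right; right
      exact h3
  · refine h2.trans ?_
    set Q := (cmx (geoL ζ K L) ^ (nL ζ γA L)) ^ 2 with hQ
    have hQ0 : 0 ≤ Q := by
      rw [hQ]
      positivity
    have h3 : Real.exp (9 * ζ * L) = Real.exp (ζ / 2 * L) * Real.exp (17 / 2 * ζ * L) := by
      rw [← Real.exp_add]
      congr 1
      ring
    have h4 : (1602 + 1600 * K : ℝ) * (Q * Real.exp (17 / 2 * ζ * L)) ≤
        Real.exp (ζ / 2 * L) * (Q * Real.exp (17 / 2 * ζ * L)) :=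
      mul_le_mul_of_nonneg_right hbig (mul_nonneg hQ0 (Real.exp_pos _).le)
    have h5 := mul_le_mul_of_nonneg_left h4 (sq_nonneg ((geoL ζ K L).J : ℝ))
    rw [h3]
    calc _ ≤ _ := h5
      _ = _ := by ring

end Pool.Agent.helper32.EB
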